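import Mathlib

set_option autoImplicit false

/-!
Sieving with large natural numbers used as bit vectors, in a form that the kernel evaluates quickly.
-/

namespace Pool.Agent.V11300.KS

/-- `∑_{j < 2 ^ m} 2 ^ (w j)` -/
def rep (w m : ℕ) : ℕ := Nat.rec 1 (fun j r => Nat.lor r (Nat.shiftLeft r (w * 2 ^ j))) m

theorem rep_zero (w : ℕ) : rep w 0 = 1 := rfl

theorem rep_succ (w m : ℕ) : rep w (m + 1) = rep w m ||| (rep w m) <<< (w * 2 ^ m) := rfl

theorem testBit_one' (i : ℕ) : Nat.testBit 1 i = decide (i = 0) := by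
  have h := Nat.testBit_two_pow_sub_one 1 i
  simp only [pow_one, Nat.add_one_sub_one] at h
  rw [h, Bool.eq_iff_iff]
  simp only [decide_eq_true_eq]
  omega

theorem testBit_rep {w : ℕ} (hw : 0 < w) (m i : ℕ) :
    (rep w m).testBit i = decide (w ∣ i ∧ i < w * 2 ^ m) := by
  induction m generalizing i with
  | zero =>
    rw [rep_zero, testBit_one']
    simp only [pow_zero, mul_one]
    by_cases hi : i = 0
    · subst hi; simp [hw]
    · have : ¬ (w ∣ i ∧ i < w) := fun h => hi (Nat.eq_zero_of_dvd_of_lt h.1 h.2)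
      simp only [this, decide_false, decide_eq_false_iff_not]
      omega
  | succ m ih =>
    rw [rep_succ, Nat.testBit_or, Nat.testBit_shiftLeft, ih, ih, Bool.eq_iff_iff]
    simp only [Bool.or_eq_true, Bool.and_eq_true, decide_eq_true_eq]
    have e : w * 2 ^ (m + 1) = w * 2 ^ m + w * 2 ^ m := by ring
    rw [e]
    constructor
    · rintro (⟨h1, h2⟩ | ⟨h1, h2, h3⟩)
      · exact ⟨h1, by omega⟩
      · refine ⟨?_, by omega⟩
        have : i = (i - w * 2 ^ m) + w * 2 ^ m := by omega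
        rw [this]
        exact dvd_add h2 (Dvd.intro _ rfl)
    · rintro ⟨h1, h2⟩
      by_cases h3 : i < w * 2 ^ m
      · exact Or.inl ⟨h1, h3⟩
      · refine Or.inr ⟨by omega, ?_, by omega⟩
        exact Nat.dvd_sub h1 (Dvd.intro _ rfl)

/-- mark the multiples -/
def marks (len : ℕ) (off : ℕ → ℕ) (L : List ℕ) : ℕ :=
  List.rec 0 (fun q _ r => Nat.lor (Nat.shiftLeft (rep q (Nat.log2 (len / q) + 1)) (off q)) r) L

theorem marks_nil (len : ℕ) (off : ℕ → ℕ) : marks len off [] = 0 := rfl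

theorem marks_cons (len : ℕ) (off : ℕ → ℕ) (q : ℕ) (L : List ℕ) :
    marks len off (q :: L) =
      (rep q (Nat.log2 (len / q) + 1)) <<< (off q) ||| marks len off L := rfl

theorem lt_mul_log2 {q : ℕ} (hq : 0 < q) (len : ℕ) : len < q * 2 ^ (Nat.log2 (len / q) + 1) := by
  have h1 : len / q < 2 ^ (Nat.log2 (len / q) + 1) := Nat.lt_log2_self
  have h2 : len < q * (len / q + 1) := by
    have := Nat.lt_mul_div_succ len hq
    simpa using this
  calc len < q * (len / q + 1) := h2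
    _ ≤ q * 2 ^ (Nat.log2 (len / q) + 1) := Nat.mul_le_mul_left _ h1

theorem testBit_marks (len : ℕ) (off : ℕ → ℕ) (L : List ℕ) (hL : ∀ q ∈ L, 0 < q) (i : ℕ)
    (hi : i < len) :
    (marks len off L).testBit i = decide (∃ q ∈ L, off q ≤ i ∧ q ∣ i - off q) := by
  induction L with
  | nil => simp [marks_nil]
  | cons q L ih =>
    have hq : 0 < q := hL q (by simp)
    rw [marks_cons, Nat.testBit_or, Nat.testBit_shiftLeft, testBit_rep hq,
      ih (fun p hp => hL p (by simp [hp])), Bool.eq_iff_iff]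
    simp only [Bool.or_eq_true, Bool.and_eq_true, decide_eq_true_eq, List.mem_cons,
      exists_eq_or_imp]
    constructor
    · rintro (⟨h1, h2, h3⟩ | h)
      · exact Or.inl ⟨h1, h2⟩
      · exact Or.inr h
    · rintro (⟨h1, h2⟩ | h)
      · refine Or.inl ⟨h1, h2, ?_⟩
        have := lt_mul_log2 hq len
        omega
      · exact Or.inr h

/-- `∑_{k < K} f k B ^ k` -/
def dig (B : ℕ) (f : ℕ → ℕ) (K : ℕ) : ℕ := ∑ k ∈ Finset.range K, f k * B ^ k

theorem dig_zero (B : ℕ) (f : ℕ → ℕ) : dig B f 0 = 0 := rfl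

theorem dig_succ (B : ℕ) (f : ℕ → ℕ) (K : ℕ) : dig B f (K + 1) = dig B f K + f K * B ^ K :=
  Finset.sum_range_succ _ _

theorem dig_succ' (B : ℕ) (f : ℕ → ℕ) (K : ℕ) :
    dig B f (K + 1) = f 0 + B * dig B (fun k => f (k + 1)) K := by
  unfold dig
  rw [Finset.sum_range_succ', Finset.mul_sum, add_comm]
  congr 1
  · simp
  · apply Finset.sum_congr rfl
    intro k _
    ring

theorem dig_congr {B : ℕ} {f g : ℕ → ℕ} {K : ℕ} (h : ∀ k < K, f k = g k) : dig B f K = dig B g K :=
  Finset.sum_congr rfl (fun k hk => by rw [h k (Finset.mem_range.1 hk)])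

theorem dig_add (B : ℕ) (f g : ℕ → ℕ) (K : ℕ) :
    dig B f K + dig B g K = dig B (fun k => f k + g k) K := by
  unfold dig
  rw [← Finset.sum_add_distrib]
  exact Finset.sum_congr rfl (fun k _ => by ring)

theorem mul_dig (B c : ℕ) (f : ℕ → ℕ) (K : ℕ) : c * dig B f K = dig B (fun k => c * f k) K := by
  unfold dig
  rw [Finset.mul_sum]
  exact Finset.sum_congr rfl (fun k _ => by ring)

theorem dig_lt {B : ℕ} {f : ℕ → ℕ} {K : ℕ} (hf : ∀ k < K, f k < B) : dig B f K < B ^ K := by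
  induction K with
  | zero => simp [dig_zero]
  | succ K ih =>
    rw [dig_succ, pow_succ]
    have h1 := ih (fun k hk => hf k (by omega))
    have h2 := hf K (by omega)
    have h3 : f K * B ^ K + B ^ K ≤ B * B ^ K := by
      rw [← Nat.succ_mul]
      exact Nat.mul_le_mul_right _ h2
    have h4 : B * B ^ K = B ^ K * B := mul_comm _ _
    omega

theorem dig_add_index (B : ℕ) (f : ℕ → ℕ) (t K : ℕ) :
    dig B f (t + K) = dig B f t + B ^ t * dig B (fun k => f (k + t)) K := by
  unfold dig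
  rw [Finset.sum_range_add, Finset.mul_sum]
  congr 1
  apply Finset.sum_congr rfl
  intro k _
  rw [add_comm t k]
  ring

theorem dig_div {B : ℕ} {f : ℕ → ℕ} {t K : ℕ} (hf : ∀ k < t, f k < B) :
    dig B f (t + K) / B ^ t = dig B (fun k => f (k + t)) K := by
  rcases Nat.eq_zero_or_pos t with h0 | h0
  · subst h0; simp
  · have hB : 0 < B := by have := hf 0 h0; omega
    rw [dig_add_index, Nat.add_mul_div_left _ _ (pow_pos hB t), Nat.div_eq_of_lt (dig_lt hf), zero_add]

theorem dig_mod {B : ℕ} {f : ℕ → ℕ} {t K : ℕ} (hf : ∀ k < t, f k < B) :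
    dig B f (t + K) % B ^ t = dig B f t := by
  rw [dig_add_index, Nat.add_mul_mod_self_left, Nat.mod_eq_of_lt (dig_lt hf)]

theorem testBit_dig {w : ℕ} (hw : 0 < w) {f : ℕ → ℕ} {K : ℕ} (hf : ∀ k < K, f k < 2 ^ w) (i : ℕ) :
    (dig (2 ^ w) f K).testBit i = (decide (i / w < K) && (f (i / w)).testBit (i % w)) := by
  induction K generalizing f i with
  | zero => simp [dig_zero]
  | succ K ih =>
    rw [dig_succ', add_comm, Nat.testBit_two_pow_mul_add _ (hf 0 (by omega))]
    by_cases hi : i < w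
    · simp only [hi, if_true]
      rw [Nat.div_eq_of_lt hi, Nat.mod_eq_of_lt hi]
      simp
    · simp only [hi, if_false]
      rw [ih (fun k hk => hf (k + 1) (by omega))]
      have e1 : i / w = (i - w) / w + 1 := by
        rw [← Nat.add_div_right _ hw, Nat.sub_add_cancel (by omega)]
      have e2 : i % w = (i - w) % w := by
        conv_lhs => rw [← Nat.sub_add_cancel (show w ≤ i by omega), Nat.add_mod_right]
      rw [e1, e2]
      congr 1
      simp

theorem rep_eq_dig {w : ℕ} (hw : 0 < w) (m : ℕ) : rep w m = dig (2 ^ w) (fun _ => 1) (2 ^ m) := by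
  apply Nat.eq_of_testBit_eq
  intro i
  rw [testBit_rep hw, testBit_dig hw (fun k _ => Nat.one_lt_two_pow (by omega)), testBit_one',
    Bool.eq_iff_iff]
  simp only [decide_eq_true_eq, Bool.and_eq_true]
  rw [Nat.div_lt_iff_lt_mul hw, mul_comm]
  constructor
  · rintro ⟨h1, h2⟩
    exact ⟨h2, Nat.mod_eq_zero_of_dvd h1⟩
  · rintro ⟨h1, h2⟩
    exact ⟨Nat.dvd_of_mod_eq_zero h2, h1⟩

/-- the stage of the parallel bit count which adds neighbouring fields of `w` bits -/
def pw (w m : ℕ) (X : ℕ) : ℕ :=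
  Nat.add (Nat.land X (Nat.mul (Nat.sub (Nat.pow 2 w) 1) (rep (2 * w) m)))
    (Nat.land (Nat.shiftRight X w) (Nat.mul (Nat.sub (Nat.pow 2 w) 1) (rep (2 * w) m)))

theorem pw_def (w m X : ℕ) : pw w m X =
    (X &&& ((2 ^ w - 1) * rep (2 * w) m)) + ((X >>> w) &&& ((2 ^ w - 1) * rep (2 * w) m)) := rfl

theorem testBit_mask {w : ℕ} (hw : 0 < w) (m i : ℕ) :
    ((2 ^ w - 1) * rep (2 * w) m).testBit i = (decide (i / (2 * w) < 2 ^ m) && decide (i % (2 * w) < w)) := by
  have h2w : 0 < 2 * w := by omega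
  have hlt : 2 ^ w - 1 < 2 ^ (2 * w) := by
    have h1 : 2 ^ w ≤ 2 ^ (2 * w) := Nat.pow_le_pow_right (by omega) (by omega)
    have h2 : 0 < 2 ^ w := by positivity
    omega
  rw [rep_eq_dig h2w, mul_dig, testBit_dig h2w (fun k _ => by rw [mul_one]; exact hlt)]
  simp only [mul_one, Nat.testBit_two_pow_sub_one]

theorem pw_dig {w m K : ℕ} {f : ℕ → ℕ} (hw : 0 < w) (hf : ∀ k < 2 * K, f k < 2 ^ w) (hK : K ≤ 2 ^ m) :
    pw w m (dig (2 ^ w) f (2 * K)) = dig (2 ^ (2 * w)) (fun k => f (2 * k) + f (2 * k + 1)) K := by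
  have h2w : 0 < 2 * w := by omega
  have hlt : 2 ^ w ≤ 2 ^ (2 * w) := Nat.pow_le_pow_right (by omega) (by omega)
  have hdiv : ∀ i : ℕ, i % (2 * w) < w → i / w = 2 * (i / (2 * w)) := by
    intro i hi
    have h1 := Nat.div_add_mod i (2 * w)
    have e : 2 * (i / (2 * w)) * w = 2 * w * (i / (2 * w)) := by ring
    rw [Nat.div_eq_iff hw, e]
    generalize 2 * w * (i / (2 * w)) = z at h1
    omega
  have hmod : ∀ i : ℕ, i % (2 * w) < w → i % w = i % (2 * w) := by
    intro i hi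
    have h1 : i % (2 * w) % w = i % w := Nat.mod_mod_of_dvd i (Dvd.intro_left 2 rfl)
    rw [← h1, Nat.mod_eq_of_lt hi]
  rw [pw_def, ← dig_add]
  congr 1
  · apply Nat.eq_of_testBit_eq
    intro i
    rw [Nat.testBit_and, testBit_dig hw hf, testBit_mask hw,
      testBit_dig h2w (fun k hk => lt_of_lt_of_le (hf (2 * k) (by omega)) hlt), Bool.eq_iff_iff]
    simp only [Bool.and_eq_true, decide_eq_true_eq]
    constructor
    · rintro ⟨⟨h1, h2⟩, h3, h4⟩
      rw [hdiv i h4, hmod i h4] at h2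
      rw [hdiv i h4] at h1
      exact ⟨by omega, h2⟩
    · rintro ⟨h1, h2⟩
      have h4 : i % (2 * w) < w := by
        by_contra hcon
        have h5 : (f (2 * (i / (2 * w)))) < 2 ^ (i % (2 * w)) :=
          lt_of_lt_of_le (hf _ (by omega)) (Nat.pow_le_pow_right (by omega) (by omega))
        rw [Nat.testBit_lt_two_pow h5] at h2
        exact absurd h2 (by simp)
      rw [hdiv i h4, hmod i h4]
      exact ⟨⟨by omega, h2⟩, by omega, h4⟩
  · apply Nat.eq_of_testBit_eq
    intro i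
    rw [Nat.testBit_and, Nat.testBit_shiftRight, testBit_dig hw hf, testBit_mask hw,
      testBit_dig h2w (fun k hk => lt_of_lt_of_le (hf (2 * k + 1) (by omega)) hlt), Bool.eq_iff_iff]
    simp only [Bool.and_eq_true, decide_eq_true_eq]
    rw [Nat.add_div_left _ hw, Nat.add_mod_left]
    constructor
    · rintro ⟨⟨h1, h2⟩, h3, h4⟩
      rw [hdiv i h4, hmod i h4] at h2
      rw [hdiv i h4] at h1
      exact ⟨by omega, h2⟩
    · rintro ⟨h1, h2⟩
      have h4 : i % (2 * w) < w := by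
        by_contra hcon
        have h5 : (f (2 * (i / (2 * w)) + 1)) < 2 ^ (i % (2 * w)) :=
          lt_of_lt_of_le (hf _ (by omega)) (Nat.pow_le_pow_right (by omega) (by omega))
        rw [Nat.testBit_lt_two_pow h5] at h2
        exact absurd h2 (by simp)
      rw [hdiv i h4, hmod i h4]
      exact ⟨⟨by omega, h2⟩, by omega, h4⟩

/-- `j` stages starting with single bits; `M` bounds the number of bits: `2 ^ M` -/
def pops (M : ℕ) (X : ℕ) (t : ℕ) : ℕ :=
  Nat.rec X (fun j r => pw (2 ^ j) (M - (j + 1)) r) t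

theorem pops_zero (M X : ℕ) : pops M X 0 = X := rfl

theorem pops_succ (M X t : ℕ) : pops M X (t + 1) = pw (2 ^ t) (M - (t + 1)) (pops M X t) := rfl

/-- sums over blocks of length `2 ^ t` -/
def blk (v : ℕ → ℕ) (t k : ℕ) : ℕ := ∑ i ∈ Finset.range (2 ^ t), v (2 ^ t * k + i)

theorem blk_zero (v : ℕ → ℕ) (k : ℕ) : blk v 0 k = v k := by simp [blk]

theorem blk_succ (v : ℕ → ℕ) (t k : ℕ) : blk v (t + 1) k = blk v t (2 * k) + blk v t (2 * k + 1) := by
  unfold blk
  rw [pow_succ, mul_two, Finset.sum_range_add]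
  congr 1
  · apply Finset.sum_congr rfl; intro i _; congr 1; ring
  · apply Finset.sum_congr rfl; intro i _; congr 1; ring

theorem blk_le {v : ℕ → ℕ} (hv : ∀ i, v i ≤ 1) (t k : ℕ) : blk v t k ≤ 2 ^ t := by
  unfold blk
  calc _ ≤ ∑ i ∈ Finset.range (2 ^ t), 1 := Finset.sum_le_sum (fun i _ => hv _)
    _ = 2 ^ t := by simp

theorem blk_lt {v : ℕ → ℕ} (hv : ∀ i, v i ≤ 1) (t k : ℕ) : blk v t k < 2 ^ (2 ^ t) :=
  lt_of_le_of_lt (blk_le hv t k) Nat.lt_two_pow_self

theorem pops_dig {v : ℕ → ℕ} (hv : ∀ i, v i ≤ 1) (M t K : ℕ) (hM : 2 ^ t * K ≤ 2 ^ M) (hK : 0 < K) :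
    pops M (dig 2 v (2 ^ t * K)) t = dig (2 ^ (2 ^ t)) (blk v t) K := by
  induction t generalizing K with
  | zero =>
    rw [pops_zero]
    simp only [pow_zero, one_mul, pow_one]
    exact dig_congr (fun k _ => (blk_zero v k).symm)
  | succ t ih =>
    have e : 2 ^ (t + 1) * K = 2 ^ t * (2 * K) := by ring
    rw [pops_succ, e, ih (2 * K) (by rw [← e]; exact hM) (by omega), pw_dig (by positivity)
      (fun k _ => blk_lt hv t k)]
    · rw [pow_succ' 2 t]
      exact dig_congr (fun k _ => (blk_succ v t k).symm)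
    · have h1 : t + 1 ≤ M := by
        by_contra hcon
        have h2 : 2 ^ M < 2 ^ (t + 1) := Nat.pow_lt_pow_right (by omega) (by omega)
        have h3 : 2 ^ (t + 1) * 1 ≤ 2 ^ (t + 1) * K := Nat.mul_le_mul_left _ hK
        omega
      have h2 : 2 ^ M = 2 ^ (t + 1) * 2 ^ (M - (t + 1)) := by
        rw [← pow_add]; congr 1; omega
      rw [h2] at hM
      exact Nat.le_of_mul_le_mul_left hM (by positivity)

end Pool.Agent.V11300.KS
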