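import Pool.Agent.V11300.KS.Pairs

set_option autoImplicit false

/-! Fast checks that a list contains all primes from `5` up to a bound; the small gaps. -/

namespace Pool.Agent.V11300.KSW

open Pool.Agent.V11300.KS

/-- the bit vector of a list -/
def maskOf (L : List ℕ) : ℕ := List.rec 0 (fun q _ a => Nat.lor (Nat.shiftLeft 1 q) a) L

theorem maskOf_nil : maskOf [] = 0 := rfl

theorem maskOf_cons (q : ℕ) (L : List ℕ) : maskOf (q :: L) = 1 <<< q ||| maskOf L := rfl

theorem testBit_maskOf (L : List ℕ) (n : ℕ) : (maskOf L).testBit n = true ↔ n ∈ L := by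
  induction L with
  | nil => simp [maskOf_nil]
  | cons q L ih =>
    rw [maskOf_cons, Nat.testBit_or, Nat.testBit_shiftLeft, Bool.or_eq_true, ih, testBit_one',
      List.mem_cons]
    simp only [Bool.and_eq_true, decide_eq_true_eq]
    constructor
    · rintro (⟨h1, h2⟩ | h)
      · left; omega
      · exact Or.inr h
    · rintro (h | h)
      · left; exact ⟨by omega, by omega⟩
      · exact Or.inr h

/-- every odd number `2 j + 3`, `j < m`, which has no proper divisor in `S` has its bit in `T` set -/
def chkC (T : ℕ) (S : List ℕ) (m : ℕ) : Bool :=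
  (List.range m).all (fun j =>
    S.any (fun q => Nat.blt q (Nat.add (Nat.mul 2 j) 3) && Nat.beq (Nat.mod (Nat.add (Nat.mul 2 j) 3) q) 0) ||
    Nat.beq (Nat.land (Nat.shiftRight T (Nat.add (Nat.mul 2 j) 3)) 1) 1)

theorem mem_of_chkC {L S : List ℕ} {m : ℕ} (hS : ∀ q ∈ S, 1 < q)
    (h : chkC (maskOf L) S m = true) {p : ℕ} (hp : p.Prime) (h3 : 3 ≤ p) (hpm : p < 2 * m + 3) :
    p ∈ L := by
  have hpodd : p % 2 = 1 := by
    rcases hp.eq_two_or_odd with h4 | h4
    · omega
    · exact h4
  unfold chkC at h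
  rw [List.all_eq_true] at h
  have h8 := h ((p - 3) / 2) (by rw [List.mem_range]; omega)
  have h10 : Nat.add (Nat.mul 2 ((p - 3) / 2)) 3 = p := by
    show 2 * ((p - 3) / 2) + 3 = p
    omega
  rw [h10, Bool.or_eq_true] at h8
  rcases h8 with h8 | h8
  · exfalso
    rw [List.any_eq_true] at h8
    obtain ⟨q, hq, hq2⟩ := h8
    rw [Bool.and_eq_true] at hq2
    have h5 : q < p := by
      have := hq2.1
      simpa using this
    have h9 : p % q = 0 := Nat.eq_of_beq_eq_true hq2.2
    have h11 := Nat.dvd_of_mod_eq_zero h9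
    rcases (Nat.dvd_prime hp).1 h11 with h12 | h12
    · have := hS q hq
      omega
    · omega
  · have h9 : (maskOf L >>> p) &&& 1 = 1 := Nat.eq_of_beq_eq_true h8
    rw [← testBit_maskOf, Nat.testBit_eq_decide_div_mod_eq, ← Nat.shiftRight_eq_div_pow]
    rw [Nat.and_one_is_mod] at h9
    simp [h9]

theorem good_of_chkC {L S : List ℕ} {m b : ℕ} (h1 : chk6 L = true)
    (h2 : L.all (fun q => Nat.ble 2 q && Nat.ble (q + 1) b) = true)
    (h4 : S.all (fun q => Nat.ble 2 q) = true) (h3 : chkC (maskOf (2 :: 3 :: L)) S m = true) :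
    Good L m b := by
  have h2' : ∀ q ∈ L, 2 ≤ q ∧ q + 1 ≤ b := by
    intro q hq
    rw [List.all_eq_true] at h2
    have h4 := h2 q hq
    rw [Bool.and_eq_true] at h4
    exact ⟨Nat.le_of_ble_eq_true h4.1, Nat.le_of_ble_eq_true h4.2⟩
  have hS : ∀ q ∈ S, 1 < q := by
    intro q hq
    rw [List.all_eq_true] at h4
    exact Nat.le_of_ble_eq_true (h4 q hq)
  refine ⟨chk6_iff h1, fun q hq => (h2' q hq).1, fun q hq => (h2' q hq).2, ?_⟩
  intro p hp hp5 hpm
  have h5 := mem_of_chkC hS h3 hp (by omega) hpm
  rw [List.mem_cons, List.mem_cons] at h5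
  rcases h5 with h5 | h5 | h5
  · omega
  · omega
  · exact h5

/-- the primes up to `167` -/
def ps0 : List ℕ := [2, 3, 5, 7, 11, 13, 17, 19, 23, 29, 31, 37, 41, 43, 47, 53, 59, 61, 67, 71, 73, 79, 83,
  89, 97, 101, 103, 107, 109, 113, 127, 131, 137, 139, 149, 151, 157, 163, 167]

theorem good_ps : Good ps 9005 18001 :=
  good_of_chkC (S := ps0) (by decide +kernel) (by decide +kernel) (by decide +kernel) (by decide +kernel)

/-- primality below `173 ^ 2` by trial division -/
def isP (n : ℕ) : Bool :=
  Nat.ble 2 n && ps0.all (fun q => Nat.blt n (Nat.mul q q) || !(Nat.beq (Nat.mod n q) 0))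

theorem ps0_complete : (List.range 172).all (fun p => Nat.blt p 2 ||
    ps0.any (fun q => (Nat.blt q p && Nat.beq (Nat.mod p q) 0) || Nat.beq q p)) = true := by decide +kernel

theorem isP_iff {n : ℕ} (hn : n < 172 * 172) : isP n = true ↔ n.Prime := by
  unfold isP
  rw [Bool.and_eq_true, List.all_eq_true]
  constructor
  · rintro ⟨h1, h2⟩
    have h1' : 2 ≤ n := Nat.le_of_ble_eq_true h1
    by_contra hnp
    have hn1 : n ≠ 1 := by omega
    have hp := Nat.minFac_prime hn1
    have hdvd := Nat.minFac_dvd n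
    have hsq := Nat.minFac_sq_le_self (show 0 < n by omega) hnp
    set p := n.minFac with hpdef
    have hp172 : p < 172 := by
      by_contra h5
      push Not at h5
      have h6 : 172 * 172 ≤ p * p := Nat.mul_le_mul h5 h5
      have h7 : p ^ 2 = p * p := sq p
      omega
    have h3 := ps0_complete
    rw [List.all_eq_true] at h3
    have h4 := h3 p (List.mem_range.2 hp172)
    have hp2 := hp.two_le
    rw [Bool.or_eq_true] at h4
    rcases h4 with h4 | h4
    · have : p < 2 := by simpa using h4
      omega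
    · rw [List.any_eq_true] at h4
      obtain ⟨q, hq, hq2⟩ := h4
      rw [Bool.or_eq_true] at hq2
      rcases hq2 with hq2 | hq2
      · rw [Bool.and_eq_true] at hq2
        have h5 : q < p := by
          have := hq2.1
          simpa using this
        have h9 : p % q = 0 := Nat.eq_of_beq_eq_true hq2.2
        have h11 := Nat.dvd_of_mod_eq_zero h9
        rcases (Nat.dvd_prime hp).1 h11 with h12 | h12
        · rw [h12] at hq
          exact absurd hq (by decide)
        · omega
      · have h5 : q = p := Nat.eq_of_beq_eq_true hq2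
        have h6 := h2 q hq
        rw [h5] at h6
        rw [Bool.or_eq_true] at h6
        rcases h6 with h6 | h6
        · have : n < p * p := by simpa using h6
          have h7 : p ^ 2 = p * p := sq p
          omega
        · rw [Bool.not_eq_true'] at h6
          have h8 : n % p = 0 := Nat.mod_eq_zero_of_dvd hdvd
          have h9 : Nat.beq (Nat.mod n p) 0 = true := by
            show Nat.beq (n % p) 0 = true
            rw [h8]
            rfl
          rw [h9] at h6
          exact absurd h6 (by simp)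
  · intro hp
    refine ⟨Nat.ble_eq_true_of_le hp.two_le, ?_⟩
    intro q hq
    rw [Bool.or_eq_true]
    by_cases h1 : n < q * q
    · left
      simpa using h1
    · right
      rw [Bool.not_eq_true']
      by_contra h2
      rw [Bool.not_eq_false] at h2
      have h3 : n % q = 0 := Nat.eq_of_beq_eq_true h2
      have h4 := Nat.dvd_of_mod_eq_zero h3
      rcases (Nat.dvd_prime hp).1 h4 with h5 | h5
      · rw [h5] at hq
        exact absurd hq (by decide)
      · have := hp.two_le
        rw [h5] at h1
        nlinarith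

/-- the scaled contribution of `p` -/
def tm (p r : ℕ) : ℕ :=
  bif isP p && (isP (Nat.add p 6) && !(isP (Nat.add p r))) then
    Nat.add (Nat.div 10000000000 p) (Nat.div 10000000000 (Nat.add p 6)) else 0

def smallSum (N : ℕ) : ℕ :=
  Nat.rec 0 (fun n a => Nat.add a (Nat.add (tm (Nat.add (Nat.mul 6 n) 1) 4) (tm (Nat.add (Nat.mul 6 n) 5) 2))) N

theorem smallSum_succ (N : ℕ) : smallSum (N + 1) = smallSum N + (tm (6 * N + 1) 4 + tm (6 * N + 5) 2) := rfl

theorem tm_le {p r : ℕ} (h : isP p = true → isP (p + 6) = true → isP (p + r) = false → Gap6 p) :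
    (tm p r : ℝ) / 10000000000 ≤ g p := by
  unfold tm
  by_cases hc : (isP p && (isP (Nat.add p 6) && !(isP (Nat.add p r)))) = true
  · rw [hc]
    have hc' := hc
    rw [Bool.and_eq_true, Bool.and_eq_true, Bool.not_eq_true'] at hc'
    obtain ⟨h1, h2, h3⟩ := hc'
    have hg := h h1 h2 h3
    unfold g
    rw [if_pos hg]
    change ((10000000000 / p + 10000000000 / (p + 6) : ℕ) : ℝ) / 10000000000 ≤ _
    have e1 : ((10000000000 / p : ℕ) : ℝ) ≤ (10000000000 : ℕ) / (p : ℝ) := Nat.cast_div_le
    have e2 : ((10000000000 / (p + 6) : ℕ) : ℝ) ≤ (10000000000 : ℕ) / ((p + 6 : ℕ) : ℝ) := Nat.cast_div_le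
    push_cast at e1 e2 ⊢
    have e3 : (10000000000 : ℝ) / p / 10000000000 = 1 / (p : ℝ) := by ring
    have e4 : (10000000000 : ℝ) / ((p : ℝ) + 6) / 10000000000 = 1 / ((p : ℝ) + 6) := by ring
    rw [add_div]
    apply add_le_add
    · rw [← e3]; exact div_le_div_of_nonneg_right e1 (by norm_num)
    · rw [← e4]; exact div_le_div_of_nonneg_right e2 (by norm_num)
  · rw [Bool.not_eq_true] at hc
    rw [hc]
    simp only [cond_false, Nat.cast_zero, zero_div]
    exact g_nonneg p

theorem small_bound (N : ℕ) (hN : 6 * N + 11 < 172 * 172) :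
    (smallSum N : ℝ) / 10000000000 ≤ ∑ n ∈ Finset.range N, G n := by
  induction N with
  | zero => simp [smallSum]
  | succ N ih =>
    rw [smallSum_succ, Finset.sum_range_succ]
    have h1 := ih (by omega)
    have h2 : (tm (6 * N + 1) 4 : ℝ) / 10000000000 ≤ g (6 * N + 1) := by
      apply tm_le
      intro a1 a2 a3
      have b1 := (isP_iff (by omega)).1 a1
      have b2 := (isP_iff (by omega)).1 a2
      have b3 : ¬ (6 * N + 5).Prime := by
        intro hp
        rw [show 6 * N + 5 = 6 * N + 1 + 4 by ring] at hp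
        rw [(isP_iff (by omega)).2 hp] at a3
        exact absurd a3 (by simp)
      apply gap6A _ b1 (by rwa [show 6 * (N + 1) + 1 = 6 * N + 1 + 6 by ring]) b3
      by_contra h0
      have : N = 0 := by omega
      subst this
      exact absurd b1 (by norm_num)
    have h3 : (tm (6 * N + 5) 2 : ℝ) / 10000000000 ≤ g (6 * N + 5) := by
      apply tm_le
      intro a1 a2 a3
      have b1 := (isP_iff (by omega)).1 a1
      have b2 := (isP_iff (by omega)).1 a2
      have b3 : ¬ (6 * (N + 1) + 1).Prime := by
        intro hp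
        rw [show 6 * (N + 1) + 1 = 6 * N + 5 + 2 by ring] at hp
        rw [(isP_iff (by omega)).2 hp] at a3
        exact absurd a3 (by simp)
      exact gap6B b1 (by rwa [show 6 * (N + 1) + 5 = 6 * N + 5 + 6 by ring]) b3
    have hG : G N = g (6 * N + 1) + g (6 * N + 5) := rfl
    rw [hG]
    push_cast
    rw [add_div, add_div]
    linarith

theorem seg_bound' {M t K s len V : ℕ} (hlen : len = 2 ^ t * K) (hb : 4096 ≤ s)
    (hm : 6 * (s + len) + 11 < 324468169) (hM : len ≤ 2 ^ M) (hK : 0 < K) (ht : 2 ≤ t)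
    (hV : Nat.ble V (total (flds M t len s ps) t s 20000000000 K) = true) :
    (V : ℝ) / 10000000000 ≤ ∑ n ∈ Finset.range len, G (s + n) := by
  subst hlen
  have h1 := seg_bound good_ps (M := M) (t := t) (K := K) (s := s) (by omega) (by norm_num)
    (by norm_num at hm ⊢; exact hm) hM hK ht
  have h2 : (V : ℝ) ≤ (total (flds M t (2 ^ t * K) s ps) t s 20000000000 K : ℝ) := by
    exact_mod_cast Nat.le_of_ble_eq_true hV
  refine le_trans ?_ h1
  exact div_le_div_of_nonneg_right h2 (by norm_num)

theorem join {s a len : ℕ} {A V : ℝ} (h1 : A ≤ ∑ n ∈ Finset.range a, G (s + n))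
    (h2 : V ≤ ∑ n ∈ Finset.range len, G (s + a + n)) : A + V ≤ ∑ n ∈ Finset.range (a + len), G (s + n) := by
  rw [Finset.sum_range_add]
  refine add_le_add h1 (le_trans h2 (le_of_eq ?_))
  apply Finset.sum_congr rfl
  intro n _
  rw [add_assoc]

end Pool.Agent.V11300.KSW
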