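import Pool.Agent.V11300.KS.Fields

set_option autoImplicit false
set_option maxRecDepth 100000

namespace Pool.Agent.V11300.KS

theorem chk0 : chkOdd oddPrimes = true := by decide +kernel

theorem chk1 : chkL oddPrimes 1600 = true := by decide +kernel

theorem chk2 : (chk (pre 32 160000 (pops 23 (unm (32 * 160000) oddPrimes) 5) 18) 9392 140283 18 &&
    Nat.ble 601088 (Nat.mod (Nat.shiftRight (pre 32 160000 (pops 23 (unm (32 * 160000) oddPrimes) 5) 18)
      (32 * 140282)) (Nat.pow 2 32))) = true := by
  decide +kernel

end Pool.Agent.V11300.KS
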