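import Pool.Agent.V11300.KS.Primes

set_option autoImplicit false

namespace Pool.Agent.V11300.KS

theorem sum_blk (v : ℕ → ℕ) (t k : ℕ) :
    ∑ j ∈ Finset.range k, blk v t j = ∑ i ∈ Finset.range (2 ^ t * k), v i := by
  induction k with
  | zero => simp
  | succ k ih =>
    rw [Finset.sum_range_succ, ih, Nat.mul_succ, Finset.sum_range_add]
    rfl

theorem primeCounting_le_self (n : ℕ) : Nat.primeCounting n ≤ n + 1 := by
  unfold Nat.primeCounting Nat.primeCounting'
  exact Nat.count_le _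

/-- The fields of the number are the values of the prime counting function at multiples of `64`. -/
theorem fields {L : List ℕ} {m K M t : ℕ} (hodd : chkOdd L = true) (hL : chkL L m = true)
    (hm : 2 * (32 * K) < (2 * m + 3) * (2 * m + 3)) (hM : 32 * K ≤ 2 ^ M) (ht1 : K ≤ 2 ^ t)
    (ht2 : 2 ^ t ≤ 2 * K) (hK : 32 * K < 2 ^ 29) :
    pre 32 K (pops M (unm (32 * K) L) 5) t =
      dig (2 ^ 32) (fun k => Nat.primeCounting (64 * (k + 1))) K := by
  have hK0 : 0 < K := by
    have : 0 < 2 ^ t := by positivity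
    omega
  set v : ℕ → ℕ := fun i => ((unm (32 * K) L).testBit i).toNat with hv
  have hv1 : ∀ i, v i ≤ 1 := fun i => Bool.toNat_le _
  have e1 : unm (32 * K) L = dig 2 v (2 ^ 5 * K) := eq_dig_bits (unm_lt _ _)
  have e2 : pops M (unm (32 * K) L) 5 = dig (2 ^ (2 ^ 5)) (blk v 5) K := by
    rw [e1]
    exact pops_dig hv1 M 5 K (by simpa using hM) hK0
  have e3 : (2 : ℕ) ^ (2 ^ 5) = 2 ^ 32 := by norm_num
  rw [e2, e3, pre_dig _ t ht2]
  · apply dig_congr
    intro k hk
    rw [win_eq _ (by omega), sum_blk]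
    have e4 : 64 * (k + 1) = 2 * (2 ^ 5 * (k + 1)) := by ring
    show _ = Nat.primeCounting (64 * (k + 1))
    rw [e4, primeCounting_two_mul _ (by omega)]
    apply Finset.sum_congr rfl
    intro i hi
    rw [Finset.mem_range] at hi
    have hi2 : i < 32 * K := by
      have : 2 ^ 5 * (k + 1) ≤ 32 * K := by
        have : k + 1 ≤ K := hk
        norm_num
        omega
      omega
    show ((unm (32 * K) L).testBit i).toNat = _
    rw [testBit_unm hodd hL hm hi2]
  · rw [sum_blk]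
    calc ∑ i ∈ Finset.range (2 ^ 5 * K), v i ≤ ∑ i ∈ Finset.range (2 ^ 5 * K), 1 :=
          Finset.sum_le_sum (fun i _ => hv1 i)
      _ = 2 ^ 5 * K := by simp
      _ < 2 ^ 32 := by norm_num at hK ⊢; omega

/-- Consequence of a successful test. -/
theorem compare {L : List ℕ} {m K M t a Kc r : ℕ} (hodd : chkOdd L = true) (hL : chkL L m = true)
    (hm : 2 * (32 * K) < (2 * m + 3) * (2 * m + 3)) (hM : 32 * K ≤ 2 ^ M) (ht1 : K ≤ 2 ^ t)
    (ht2 : 2 ^ t ≤ 2 * K) (hK : 64 * K + 1 < 2 ^ 29) (ha : 1 ≤ a) (hKc : Kc + 2 * a ≤ K)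
    (hr : Kc ≤ 2 ^ r) (h : chk (pre 32 K (pops M (unm (32 * K) L) 5) t) a Kc r = true) (k : ℕ)
    (hk : k < Kc) :
    1 + Nat.primeCounting (64 * (k + 1)) + Nat.primeCounting (64 * (k + 1 + 2 * a)) ≤
      2 * Nat.primeCounting (64 * (k + a)) := by
  rw [fields hodd hL hm hM ht1 ht2 (by omega)] at h
  exact chk_sound (s := fun k => Nat.primeCounting (64 * k)) ha (fun k hk => by
    have := primeCounting_le_self (64 * k)
    show Nat.primeCounting (64 * k) < 2 ^ 29
    omega) hKc hr h k hk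

/-- The value of the prime counting function read from a field. -/
theorem field {L : List ℕ} {m K M t : ℕ} (hodd : chkOdd L = true) (hL : chkL L m = true)
    (hm : 2 * (32 * K) < (2 * m + 3) * (2 * m + 3)) (hM : 32 * K ≤ 2 ^ M) (ht1 : K ≤ 2 ^ t)
    (ht2 : 2 ^ t ≤ 2 * K) (hK : 64 * K + 1 < 2 ^ 29) (k : ℕ) (hk : k < K) :
    Nat.mod (Nat.shiftRight (pre 32 K (pops M (unm (32 * K) L) 5) t) (32 * k)) (Nat.pow 2 32) =
      Nat.primeCounting (64 * (k + 1)) := by
  rw [fields hodd hL hm hM ht1 ht2 (by omega)]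
  have hlt : ∀ k < K, Nat.primeCounting (64 * (k + 1)) < 2 ^ 32 := by
    intro k hk
    have := primeCounting_le_self (64 * (k + 1))
    norm_num at hK ⊢
    omega
  change (dig (2 ^ 32) (fun k => Nat.primeCounting (64 * (k + 1))) K >>> (32 * k)) % 2 ^ 32 = _
  rw [Nat.shiftRight_eq_div_pow, pow_mul]
  have h1 : K = k + (1 + (K - k - 1)) := by omega
  rw [h1, dig_div (fun j hj => hlt j (by omega))]
  have h2 := dig_mod (B := 2 ^ 32) (f := fun j => Nat.primeCounting (64 * (j + k + 1))) (t := 1)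
    (K := K - k - 1) (fun j hj => hlt (j + k) (by omega))
  rw [pow_one] at h2
  rw [h2]
  simp [dig]

end Pool.Agent.V11300.KS
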