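import Pool.Agent.V11300.KS.Basic

set_option autoImplicit false

namespace Pool.Agent.V11300.KS

theorem eq_dig_bits {X len : ℕ} (h : X < 2 ^ len) :
    X = dig 2 (fun i => (X.testBit i).toNat) len := by
  apply Nat.eq_of_testBit_eq
  intro i
  have h2 : ∀ k < len, (fun i => (X.testBit i).toNat) k < 2 ^ 1 := by
    intro k _
    have := Bool.toNat_le (X.testBit k)
    show (X.testBit k).toNat < 2 ^ 1
    omega
  have h3 := testBit_dig one_pos h2 i
  rw [pow_one] at h3
  rw [h3, Nat.div_one, Nat.mod_one]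
  by_cases hi : i < len
  · simp only [hi, decide_true, Bool.true_and]
    cases X.testBit i <;> decide
  · have : X.testBit i = false := by
      apply Nat.testBit_lt_two_pow
      exact lt_of_lt_of_le h (Nat.pow_le_pow_right (by omega) (by omega))
    simp [this]

/-- sums over the windows of `2 ^ t` fields ending at `k` -/
def win (c : ℕ → ℕ) (t k : ℕ) : ℕ := ∑ i ∈ Finset.range (2 ^ t), if i ≤ k then c (k - i) else 0

theorem win_zero (c : ℕ → ℕ) (k : ℕ) : win c 0 k = c k := by simp [win]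

theorem win_succ (c : ℕ → ℕ) (t k : ℕ) :
    win c (t + 1) k = win c t k + if 2 ^ t ≤ k then win c t (k - 2 ^ t) else 0 := by
  unfold win
  rw [pow_succ, mul_two, Finset.sum_range_add]
  congr 1
  split_ifs with h
  · apply Finset.sum_congr rfl
    intro i _
    by_cases h1 : i ≤ k - 2 ^ t
    · rw [if_pos h1, if_pos (by omega)]
      congr 1
      omega
    · rw [if_neg h1, if_neg (by omega)]
  · apply Finset.sum_eq_zero
    intro i _
    rw [if_neg (by omega)]

theorem win_le (c : ℕ → ℕ) (t k : ℕ) : win c t k ≤ ∑ j ∈ Finset.range (k + 1), c j := by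
  unfold win
  calc ∑ i ∈ Finset.range (2 ^ t), (if i ≤ k then c (k - i) else 0)
      = ∑ i ∈ (Finset.range (2 ^ t)).filter (fun i => i ≤ k), c (k - i) := by
        rw [Finset.sum_filter]
    _ ≤ ∑ i ∈ Finset.range (k + 1), c (k - i) := by
        apply Finset.sum_le_sum_of_subset
        intro i hi
        rw [Finset.mem_filter] at hi
        rw [Finset.mem_range]
        omega
    _ = ∑ j ∈ Finset.range (k + 1), c j := by
        have := Finset.sum_range_reflect c (k + 1)
        rw [← this]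
        apply Finset.sum_congr rfl
        intro i _
        congr 1

theorem win_eq (c : ℕ → ℕ) {t k : ℕ} (h : k < 2 ^ t) :
    win c t k = ∑ j ∈ Finset.range (k + 1), c j := by
  unfold win
  calc ∑ i ∈ Finset.range (2 ^ t), (if i ≤ k then c (k - i) else 0)
      = ∑ i ∈ (Finset.range (2 ^ t)).filter (fun i => i ≤ k), c (k - i) := by
        rw [Finset.sum_filter]
    _ = ∑ i ∈ Finset.range (k + 1), c (k - i) := by
        congr 1
        ext i
        rw [Finset.mem_filter, Finset.mem_range, Finset.mem_range]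
        omega
    _ = ∑ j ∈ Finset.range (k + 1), c j := by
        have := Finset.sum_range_reflect c (k + 1)
        rw [← this]
        apply Finset.sum_congr rfl
        intro i _
        congr 1

/-- prefix sums by doubling -/
def pre (w K : ℕ) (X t : ℕ) : ℕ :=
  Nat.rec X (fun j r => Nat.mod (Nat.add r (Nat.shiftLeft r (w * 2 ^ j))) (Nat.pow 2 (w * K))) t

theorem pre_zero (w K X : ℕ) : pre w K X 0 = X := rfl

theorem pre_succ (w K X t : ℕ) :
    pre w K X (t + 1) = (pre w K X t + (pre w K X t) <<< (w * 2 ^ t)) % 2 ^ (w * K) := rfl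

theorem dig_shift {B : ℕ} (f : ℕ → ℕ) {s K : ℕ} (hs : s ≤ K) :
    ∃ r, dig B f K * B ^ s = dig B (fun k => if s ≤ k then f (k - s) else 0) K + B ^ K * r := by
  refine ⟨dig B (fun k => f (k + (K - s))) s, ?_⟩
  have e1 : dig B f K = dig B f (K - s) + B ^ (K - s) * dig B (fun k => f (k + (K - s))) s := by
    rw [← dig_add_index]
    congr 1
    omega
  have e2 : dig B (fun k => if s ≤ k then f (k - s) else 0) K = B ^ s * dig B f (K - s) := by
    have h1 := dig_add_index B (fun k => if s ≤ k then f (k - s) else 0) s (K - s)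
    rw [show s + (K - s) = K by omega] at h1
    rw [h1]
    have h2 : dig B (fun k => if s ≤ k then f (k - s) else 0) s = 0 := by
      unfold dig
      apply Finset.sum_eq_zero
      intro k hk
      rw [Finset.mem_range] at hk
      show (if s ≤ k then f (k - s) else 0) * B ^ k = 0
      rw [if_neg (by omega), zero_mul]
    rw [h2, zero_add]
    congr 1
    apply dig_congr
    intro k _
    rw [if_pos (by omega)]
    congr 1
    omega
  rw [e1, e2]
  have e3 : B ^ K = B ^ (K - s) * B ^ s := by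
    rw [← pow_add]; congr 1; omega
  rw [e3]
  ring

theorem pre_dig {w K : ℕ} {c : ℕ → ℕ} (hsum : ∑ j ∈ Finset.range K, c j < 2 ^ w) (t : ℕ)
    (ht : 2 ^ t ≤ 2 * K) :
    pre w K (dig (2 ^ w) c K) t = dig (2 ^ w) (win c t) K := by
  induction t with
  | zero => rw [pre_zero]; exact dig_congr (fun k _ => (win_zero c k).symm)
  | succ t ih =>
    have hlt : ∀ t, ∀ k < K, win c t k < 2 ^ w := by
      intro t k hk
      refine lt_of_le_of_lt (win_le c t k) (lt_of_le_of_lt ?_ hsum)
      exact Finset.sum_le_sum_of_subset (Finset.range_subset_range.2 (by omega))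
    have h2t : 2 ^ t ≤ K := by rw [pow_succ] at ht; omega
    rw [pre_succ, ih (by rw [pow_succ] at ht; omega), Nat.shiftLeft_eq, pow_mul]
    obtain ⟨r, hr⟩ := dig_shift (B := 2 ^ w) (win c t) h2t
    rw [hr, ← add_assoc, dig_add, pow_mul, Nat.add_mul_mod_self_left]
    have e : dig (2 ^ w) (fun k => win c t k + if 2 ^ t ≤ k then win c t (k - 2 ^ t) else 0) K =
        dig (2 ^ w) (win c (t + 1)) K := dig_congr (fun k _ => (win_succ c t k).symm)
    rw [e, Nat.mod_eq_of_lt (dig_lt (hlt (t + 1)))]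

theorem dig_sub {B : ℕ} {f g : ℕ → ℕ} {K : ℕ} (h : ∀ k < K, g k ≤ f k) :
    dig B f K - dig B g K = dig B (fun k => f k - g k) K := by
  have h1 : dig B (fun k => f k - g k) K + dig B g K = dig B f K := by
    rw [dig_add]
    exact dig_congr (fun k hk => Nat.sub_add_cancel (h k hk))
  omega

theorem mask_ge {w : ℕ} {z : ℕ → ℕ} {K : ℕ} (hz : ∀ k < K, z k < 2 ^ (w + 1))
    (h : dig (2 ^ (w + 1)) z K &&& dig (2 ^ (w + 1)) (fun _ => 2 ^ w) K =
      dig (2 ^ (w + 1)) (fun _ => 2 ^ w) K) (k : ℕ) (hk : k < K) : 2 ^ w ≤ z k := by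
  have hlt : (2 : ℕ) ^ w < 2 ^ (w + 1) := Nat.pow_lt_pow_right (by omega) (by omega)
  have hw : 0 < w + 1 := by omega
  have h1 := congrArg (fun x => Nat.testBit x ((w + 1) * k + w)) h
  simp only [Nat.testBit_and] at h1
  rw [testBit_dig hw hz, testBit_dig hw (fun _ _ => hlt)] at h1
  have e1 : ((w + 1) * k + w) / (w + 1) = k := by
    rw [Nat.mul_add_div hw, Nat.div_eq_of_lt (by omega), add_zero]
  have e2 : ((w + 1) * k + w) % (w + 1) = w := by
    rw [Nat.mul_add_mod, Nat.mod_eq_of_lt (by omega)]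
  rw [e1, e2] at h1
  simp only [hk, decide_true, Bool.true_and, Nat.testBit_two_pow_self, Bool.and_true] at h1
  exact Nat.ge_two_pow_of_testBit h1

/-- the test that `1 + s (k + 1) + s (k + 1 + 2 a) ≤ 2 s (k + a)` for all `k < Kc` where `P` has the fields
`s (k + 1)` -/
def chk (P a Kc m : ℕ) : Bool :=
  Nat.beq (Nat.land (Nat.sub
      (Nat.add (Nat.mul 2 (Nat.mod (Nat.shiftRight P (32 * (a - 1))) (Nat.pow 2 (32 * Kc))))
        (Nat.mul (Nat.pow 2 31) (Nat.mod (rep 32 m) (Nat.pow 2 (32 * Kc)))))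
      (Nat.add (Nat.mod (rep 32 m) (Nat.pow 2 (32 * Kc)))
        (Nat.add (Nat.mod P (Nat.pow 2 (32 * Kc)))
          (Nat.mod (Nat.shiftRight P (32 * (2 * a))) (Nat.pow 2 (32 * Kc))))))
      (Nat.mul (Nat.pow 2 31) (Nat.mod (rep 32 m) (Nat.pow 2 (32 * Kc)))))
    (Nat.mul (Nat.pow 2 31) (Nat.mod (rep 32 m) (Nat.pow 2 (32 * Kc))))

theorem chk_sound {s : ℕ → ℕ} {K a Kc m : ℕ} (ha : 1 ≤ a) (hs : ∀ k ≤ K, s k < 2 ^ 29)
    (hK : Kc + 2 * a ≤ K) (hm : Kc ≤ 2 ^ m)
    (h : chk (dig (2 ^ 32) (fun k => s (k + 1)) K) a Kc m = true) (k : ℕ) (hk : k < Kc) :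
    1 + s (k + 1) + s (k + 1 + 2 * a) ≤ 2 * s (k + a) := by
  have hlt : ∀ k < K, s (k + 1) < 2 ^ 32 := fun k hk => lt_trans (hs (k + 1) hk) (by norm_num)
  have e1 : (dig (2 ^ 32) (fun k => s (k + 1)) K >>> (32 * (a - 1))) % 2 ^ (32 * Kc) =
      dig (2 ^ 32) (fun k => s (k + a)) Kc := by
    rw [Nat.shiftRight_eq_div_pow, pow_mul, pow_mul]
    have h1 : K = (a - 1) + (Kc + (K - Kc - (a - 1))) := by omega
    rw [h1, dig_div (fun k hk => hlt k (by omega)), dig_mod]
    · apply dig_congr; intro k _; congr 1; omega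
    · intro k hk; exact hlt (k + (a - 1)) (by omega)
  have e2 : (dig (2 ^ 32) (fun k => s (k + 1)) K) % 2 ^ (32 * Kc) =
      dig (2 ^ 32) (fun k => s (k + 1)) Kc := by
    rw [pow_mul]
    have h1 : K = Kc + (K - Kc) := by omega
    rw [h1, dig_mod (fun k hk => hlt k (by omega))]
  have e3 : (dig (2 ^ 32) (fun k => s (k + 1)) K >>> (32 * (2 * a))) % 2 ^ (32 * Kc) =
      dig (2 ^ 32) (fun k => s (k + 1 + 2 * a)) Kc := by
    rw [Nat.shiftRight_eq_div_pow, pow_mul 2 32 (2 * a), pow_mul 2 32 Kc]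
    have h1 : K = 2 * a + (Kc + (K - Kc - 2 * a)) := by omega
    rw [h1, dig_div (fun k hk => hlt k (by omega)), dig_mod]
    · apply dig_congr; intro k _; congr 1; omega
    · intro k hk; exact hlt (k + 2 * a) (by omega)
  have e4 : rep 32 m % 2 ^ (32 * Kc) = dig (2 ^ 32) (fun _ => 1) Kc := by
    rw [rep_eq_dig (by norm_num), pow_mul]
    have h1 : 2 ^ m = Kc + (2 ^ m - Kc) := by omega
    rw [h1, dig_mod (fun k _ => by norm_num)]
  unfold chk at h
  have h' := Nat.eq_of_beq_eq_true h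
  change ((2 * ((dig (2 ^ 32) (fun k => s (k + 1)) K >>> (32 * (a - 1))) % 2 ^ (32 * Kc)) +
      2 ^ 31 * (rep 32 m % 2 ^ (32 * Kc))) - (rep 32 m % 2 ^ (32 * Kc) +
      ((dig (2 ^ 32) (fun k => s (k + 1)) K) % 2 ^ (32 * Kc) +
      (dig (2 ^ 32) (fun k => s (k + 1)) K >>> (32 * (2 * a))) % 2 ^ (32 * Kc)))) &&&
      (2 ^ 31 * (rep 32 m % 2 ^ (32 * Kc))) = 2 ^ 31 * (rep 32 m % 2 ^ (32 * Kc)) at h'
  rw [e1, e2, e3, e4, mul_dig, mul_dig, dig_add, dig_add, dig_add, dig_sub] at h'
  · simp only [mul_one] at h'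
    have hsk : ∀ j ≤ K, s j < 2 ^ 29 := hs
    have h2 := mask_ge (w := 31) (z := fun k => 2 * s (k + a) + 2 ^ 31 -
      (1 + (s (k + 1) + s (k + 1 + 2 * a)))) (K := Kc) (fun k hk => by
        have h3 := hs (k + a) (by omega)
        have h4 := hs (k + 1) (by omega)
        have h5 := hs (k + 1 + 2 * a) (by omega)
        norm_num at h3 h4 h5 ⊢
        omega) h' k hk
    have h3 := hs (k + a) (by omega)
    have h4 := hs (k + 1) (by omega)
    have h5 := hs (k + 1 + 2 * a) (by omega)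
    norm_num at h2 h3 h4 h5
    omega
  · intro k hk
    have h3 := hs (k + a) (by omega)
    have h4 := hs (k + 1) (by omega)
    have h5 := hs (k + 1 + 2 * a) (by omega)
    norm_num at h3 h4 h5 ⊢
    omega

end Pool.Agent.V11300.KS
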