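import Pool.Agent.V11300.KS.Wheel
import Pool.Agent.V11300.KS.Prefix

set_option autoImplicit false

/-! Pairs of consecutive primes with difference `6` in a segment. -/

namespace Pool.Agent.V11300.KSW

open Pool.Agent.V11300.KS

def pairsA (len : ℕ) (A B : ℕ) : ℕ :=
  Nat.land (Nat.land A (Nat.shiftRight A 1)) (Nat.xor B (Nat.sub (Nat.pow 2 len) 1))

def pairsB (len : ℕ) (A B : ℕ) : ℕ :=
  Nat.land (Nat.land B (Nat.shiftRight B 1)) (Nat.xor (Nat.shiftRight A 1) (Nat.sub (Nat.pow 2 len) 1))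

/-- `p` and `p + 6` are consecutive primes -/
def Gap6 (p : ℕ) : Prop := p.Prime ∧ (p + 6).Prime ∧ ∀ m, p < m → m < p + 6 → ¬ m.Prime

theorem gap6A {n : ℕ} (hn : 1 ≤ n) (h1 : (6 * n + 1).Prime) (h2 : (6 * (n + 1) + 1).Prime)
    (h3 : ¬ (6 * n + 5).Prime) : Gap6 (6 * n + 1) := by
  refine ⟨h1, by rwa [show 6 * n + 1 + 6 = 6 * (n + 1) + 1 by ring], ?_⟩
  intro m hm1 hm2 hm
  have h4 : m = 6 * n + 2 ∨ m = 6 * n + 3 ∨ m = 6 * n + 4 ∨ m = 6 * n + 5 ∨ m = 6 * n + 6 := by omega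
  rcases h4 with h | h | h | h | h
  · rcases hm.eq_two_or_odd with h5 | h5 <;> omega
  · have h5 : 3 ∣ m := by omega
    rcases (Nat.dvd_prime hm).1 h5 with h6 | h6 <;> omega
  · rcases hm.eq_two_or_odd with h5 | h5 <;> omega
  · rw [h] at hm; exact h3 hm
  · rcases hm.eq_two_or_odd with h5 | h5 <;> omega

theorem gap6B {n : ℕ} (h1 : (6 * n + 5).Prime) (h2 : (6 * (n + 1) + 5).Prime)
    (h3 : ¬ (6 * (n + 1) + 1).Prime) : Gap6 (6 * n + 5) := by
  refine ⟨h1, by rwa [show 6 * n + 5 + 6 = 6 * (n + 1) + 5 by ring], ?_⟩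
  intro m hm1 hm2 hm
  have h4 : m = 6 * n + 6 ∨ m = 6 * n + 7 ∨ m = 6 * n + 8 ∨ m = 6 * n + 9 ∨ m = 6 * n + 10 := by omega
  rcases h4 with h | h | h | h | h
  · rcases hm.eq_two_or_odd with h5 | h5 <;> omega
  · rw [h] at hm; exact h3 hm
  · rcases hm.eq_two_or_odd with h5 | h5 <;> omega
  · have h5 : 3 ∣ m := by omega
    rcases (Nat.dvd_prime hm).1 h5 with h6 | h6 <;> omega
  · rcases hm.eq_two_or_odd with h5 | h5 <;> omega

theorem lt_len_of_testBit {X len i : ℕ} (hX : X < 2 ^ len) (h : X.testBit i = true) : i < len := by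
  by_contra hcon
  have : X.testBit i = false := Nat.testBit_lt_two_pow
    (lt_of_lt_of_le hX (Nat.pow_le_pow_right (by omega) (by omega)))
  rw [this] at h
  exact absurd h (by simp)

section

variable {L : List ℕ} {m b len s : ℕ}

theorem pairsA_lt {A B : ℕ} (hA : A < 2 ^ len) : pairsA len A B < 2 ^ len := by
  unfold pairsA
  exact lt_of_le_of_lt (Nat.and_le_left.trans Nat.and_le_left) hA

theorem pairsB_lt {A B : ℕ} (hB : B < 2 ^ len) : pairsB len A B < 2 ^ len := by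
  unfold pairsB
  exact lt_of_le_of_lt (Nat.and_le_left.trans Nat.and_le_left) hB

theorem pairsA_gap (hG : Good L m b) (hb : b ≤ 6 * s + 1) (hb1 : 1 < b)
    (hm : 6 * (s + len) + 11 < (2 * m + 3) * (2 * m + 3)) {i : ℕ}
    (h : (pairsA len (un len s 1 L) (un len s 5 L)).testBit i = true) :
    Gap6 (6 * (s + i) + 1) := by
  have hi := lt_len_of_testBit (pairsA_lt (un_lt _ _ _ _)) h
  unfold pairsA at h
  change ((un len s 1 L &&& (un len s 1 L >>> 1)) &&& (un len s 5 L ^^^ (2 ^ len - 1))).testBit i = true at h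
  rw [Nat.testBit_and, Nat.testBit_and, Nat.testBit_shiftRight, Nat.testBit_xor,
    Nat.testBit_two_pow_sub_one] at h
  simp only [Bool.and_eq_true, hi, decide_true, Bool.xor_true, Bool.not_eq_true'] at h
  obtain ⟨⟨h1, h2⟩, h3⟩ := h
  have hi2 := lt_len_of_testBit (un_lt _ _ _ _) h2
  have h1' := (testBit_un hG.cop i hi).1 h1
  have h2' := (testBit_un hG.cop (1 + i) hi2).1 h2
  have h3' : ¬ ∀ q ∈ L, ¬ q ∣ 6 * (s + i) + 5 := by
    intro h4
    rw [(testBit_un hG.cop i hi).2 h4] at h3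
    exact absurd h3 (by simp)
  apply gap6A (by omega)
  · exact (hG.prime_iff (Or.inl (by omega)) (by omega) hb1 (by omega)).2 h1'
  · rw [show 6 * (s + i + 1) + 1 = 6 * (s + (1 + i)) + 1 by ring]
    exact (hG.prime_iff (Or.inl (by omega)) (by omega) hb1 (by omega)).2 h2'
  · intro hp
    exact h3' ((hG.prime_iff (Or.inr (by omega)) (by omega) hb1 (by omega)).1 hp)

theorem pairsB_gap (hG : Good L m b) (hb : b ≤ 6 * s + 1) (hb1 : 1 < b)
    (hm : 6 * (s + len) + 11 < (2 * m + 3) * (2 * m + 3)) {i : ℕ}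
    (h : (pairsB len (un len s 1 L) (un len s 5 L)).testBit i = true) :
    Gap6 (6 * (s + i) + 5) := by
  have hi := lt_len_of_testBit (pairsB_lt (un_lt _ _ _ _)) h
  unfold pairsB at h
  change ((un len s 5 L &&& (un len s 5 L >>> 1)) &&& ((un len s 1 L >>> 1) ^^^ (2 ^ len - 1))).testBit i = true at h
  rw [Nat.testBit_and, Nat.testBit_and, Nat.testBit_shiftRight, Nat.testBit_xor,
    Nat.testBit_shiftRight, Nat.testBit_two_pow_sub_one] at h
  simp only [Bool.and_eq_true, hi, decide_true, Bool.xor_true, Bool.not_eq_true'] at h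
  obtain ⟨⟨h1, h2⟩, h3⟩ := h
  have hi2 := lt_len_of_testBit (un_lt _ _ _ _) h2
  have h1' := (testBit_un hG.cop i hi).1 h1
  have h2' := (testBit_un hG.cop (1 + i) hi2).1 h2
  have h3' : ¬ ∀ q ∈ L, ¬ q ∣ 6 * (s + (1 + i)) + 1 := by
    intro h4
    rw [(testBit_un hG.cop (1 + i) hi2).2 h4] at h3
    exact absurd h3 (by simp)
  apply gap6B
  · exact (hG.prime_iff (Or.inr (by omega)) (by omega) hb1 (by omega)).2 h1'
  · rw [show 6 * (s + i + 1) + 5 = 6 * (s + (1 + i)) + 5 by ring]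
    exact (hG.prime_iff (Or.inr (by omega)) (by omega) hb1 (by omega)).2 h2'
  · intro hp
    rw [show 6 * (s + i + 1) + 1 = 6 * (s + (1 + i)) + 1 by ring] at hp
    exact h3' ((hG.prime_iff (Or.inl (by omega)) (by omega) hb1 (by omega)).1 hp)

end

open Classical in
/-- the contribution of `p` -/
noncomputable def g (p : ℕ) : ℝ := if Gap6 p then 1 / (p : ℝ) + 1 / ((p : ℝ) + 6) else 0

theorem g_nonneg (p : ℕ) : 0 ≤ g p := by
  unfold g
  split_ifs
  · positivity
  · exact le_rfl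

/-- the contribution of `6 n + 1` and `6 n + 5` -/
noncomputable def G (n : ℕ) : ℝ := g (6 * n + 1) + g (6 * n + 5)

theorem G_nonneg (n : ℕ) : 0 ≤ G n := add_nonneg (g_nonneg _) (g_nonneg _)

theorem g_ge {p u : ℕ} (hp : Gap6 p) (hu : p + 6 ≤ 6 * u + 6) : 2 / (6 * (u : ℝ) + 6) ≤ g p := by
  unfold g
  rw [if_pos hp]
  have hp0 : 0 < p := hp.1.pos
  have hp0' : (0 : ℝ) < p := by exact_mod_cast hp0
  have hu' : (p : ℝ) + 6 ≤ 6 * u + 6 := by exact_mod_cast hu
  have h1 : 1 / (6 * (u : ℝ) + 6) ≤ 1 / (p : ℝ) := one_div_le_one_div_of_le hp0' (by linarith)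
  have h2 : 1 / (6 * (u : ℝ) + 6) ≤ 1 / ((p : ℝ) + 6) := one_div_le_one_div_of_le (by linarith) hu'
  have h3 : 2 / (6 * (u : ℝ) + 6) = 1 / (6 * (u : ℝ) + 6) + 1 / (6 * (u : ℝ) + 6) := by ring
  rw [h3]
  exact add_le_add h1 h2

/-- the numbers of pairs in the blocks -/
def flds (M t len s : ℕ) (L : List ℕ) : ℕ :=
  Nat.add (pops M (pairsA len (un len s 1 L) (un len s 5 L)) t)
    (pops M (pairsB len (un len s 1 L) (un len s 5 L)) t)

/-- the weighted sum of the fields -/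
def total (W t s c : ℕ) (K : ℕ) : ℕ :=
  Nat.rec 0 (fun k a => Nat.add a (Nat.div (Nat.mul (Nat.mod (Nat.shiftRight W (Nat.mul (Nat.pow 2 t) k))
    (Nat.pow 2 (Nat.pow 2 t))) c) (Nat.add (Nat.mul 6 (Nat.add s (Nat.mul (Nat.pow 2 t) (Nat.add k 1)))) 6))) K

theorem total_zero (W t s c : ℕ) : total W t s c 0 = 0 := rfl

theorem total_succ (W t s c K : ℕ) : total W t s c (K + 1) = total W t s c K +
    ((W >>> (2 ^ t * K)) % 2 ^ (2 ^ t) * c) / (6 * (s + 2 ^ t * (K + 1)) + 6) := rfl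

theorem dig_field {w : ℕ} {f : ℕ → ℕ} {K : ℕ} (hf : ∀ k < K, f k < 2 ^ w) {k : ℕ} (hk : k < K) :
    (dig (2 ^ w) f K >>> (w * k)) % 2 ^ w = f k := by
  rw [Nat.shiftRight_eq_div_pow, pow_mul]
  have h1 : K = k + (1 + (K - k - 1)) := by omega
  rw [h1, dig_div (fun j hj => hf j (by omega))]
  have h2 := dig_mod (B := 2 ^ w) (f := fun j => f (j + k)) (t := 1)
    (K := K - k - 1) (fun j hj => hf (j + k) (by omega))
  rw [pow_one] at h2
  rw [h2]
  simp [dig]

theorem total_bound {t s c K : ℕ} {f : ℕ → ℕ} (hf : ∀ k < K, f k < 2 ^ (2 ^ t)) (j : ℕ) (hj : j ≤ K) :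
    (total (dig (2 ^ (2 ^ t)) f K) t s c j : ℝ) ≤
      ∑ k ∈ Finset.range j, (f k : ℝ) * (c / (6 * ((s + 2 ^ t * (k + 1) : ℕ) : ℝ) + 6)) := by
  induction j with
  | zero => simp [total_zero]
  | succ j ih =>
    rw [total_succ, Finset.sum_range_succ, dig_field hf (by omega)]
    push_cast
    have h1 := ih (by omega)
    push_cast at h1
    have h2 : (((f j * c) / (6 * (s + 2 ^ t * (j + 1)) + 6) : ℕ) : ℝ) ≤
        ((f j * c : ℕ) : ℝ) / ((6 * (s + 2 ^ t * (j + 1)) + 6 : ℕ) : ℝ) := Nat.cast_div_le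
    push_cast at h2
    have h3 : (f j : ℝ) * c / (6 * ((s : ℝ) + 2 ^ t * ((j : ℝ) + 1)) + 6) =
        (f j : ℝ) * (c / (6 * ((s : ℝ) + 2 ^ t * ((j : ℝ) + 1)) + 6)) := by ring
    rw [h3] at h2
    linarith

theorem sum_blocks (F : ℕ → ℝ) (B K : ℕ) :
    ∑ k ∈ Finset.range K, ∑ i ∈ Finset.range B, F (B * k + i) = ∑ n ∈ Finset.range (B * K), F n := by
  induction K with
  | zero => simp
  | succ K ih => rw [Finset.sum_range_succ, ih, Nat.mul_succ, Finset.sum_range_add]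

theorem seg_bound {L : List ℕ} {m b M t K s : ℕ} (hG : Good L m b) (hb : b ≤ 6 * s + 1) (hb1 : 1 < b)
    (hm : 6 * (s + 2 ^ t * K) + 11 < (2 * m + 3) * (2 * m + 3)) (hM : 2 ^ t * K ≤ 2 ^ M) (hK : 0 < K)
    (ht : 2 ≤ t) :
    (total (flds M t (2 ^ t * K) s L) t s 20000000000 K : ℝ) / 10000000000 ≤
      ∑ n ∈ Finset.range (2 ^ t * K), G (s + n) := by
  set len := 2 ^ t * K with hlen
  set XA := pairsA len (un len s 1 L) (un len s 5 L) with hXA
  set XB := pairsB len (un len s 1 L) (un len s 5 L) with hXB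
  set vA : ℕ → ℕ := fun i => (XA.testBit i).toNat with hvA
  set vB : ℕ → ℕ := fun i => (XB.testBit i).toNat with hvB
  have hvA1 : ∀ i, vA i ≤ 1 := fun i => Bool.toNat_le _
  have hvB1 : ∀ i, vB i ≤ 1 := fun i => Bool.toNat_le _
  have eA : pops M XA t = dig (2 ^ (2 ^ t)) (blk vA t) K := by
    have hX : XA = dig 2 vA len := eq_dig_bits (pairsA_lt (un_lt len s 1 L))
    have h := pops_dig hvA1 M t K hM hK
    rw [← hlen, ← hX] at h
    exact h
  have eB : pops M XB t = dig (2 ^ (2 ^ t)) (blk vB t) K := by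
    have hX : XB = dig 2 vB len := eq_dig_bits (pairsB_lt (un_lt len s 5 L))
    have h := pops_dig hvB1 M t K hM hK
    rw [← hlen, ← hX] at h
    exact h
  have e1 : flds M t len s L = dig (2 ^ (2 ^ t)) (fun k => blk vA t k + blk vB t k) K := by
    unfold flds
    change pops M XA t + pops M XB t = _
    rw [eA, eB, dig_add]
  have hlt : ∀ k < K, blk vA t k + blk vB t k < 2 ^ (2 ^ t) := by
    intro k _
    have h1 := blk_le hvA1 t k
    have h2 := blk_le hvB1 t k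
    have h3 : t + 1 < 2 ^ t := by
      have : ∀ t, 2 ≤ t → t + 1 < 2 ^ t := by
        intro t ht
        induction t, ht using Nat.le_induction with
        | base => norm_num
        | succ t _ ih => rw [pow_succ]; omega
      exact this t ht
    have h4 : 2 ^ (t + 1) < 2 ^ (2 ^ t) := Nat.pow_lt_pow_right (by omega) h3
    rw [pow_succ] at h4
    omega
  rw [e1]
  have h1 := total_bound (s := s) (c := 20000000000) hlt K le_rfl
  have h2 : ∀ k < K, ((blk vA t k + blk vB t k : ℕ) : ℝ) *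
      (2 / (6 * ((s + 2 ^ t * (k + 1) : ℕ) : ℝ) + 6)) ≤
      ∑ i ∈ Finset.range (2 ^ t), G (s + (2 ^ t * k + i)) := by
    intro k _
    unfold blk
    rw [← Finset.sum_add_distrib]
    push_cast
    rw [Finset.sum_mul]
    apply Finset.sum_le_sum
    intro i hi
    rw [Finset.mem_range] at hi
    have h5 : 2 ^ t * (k + 1) = 2 ^ t * k + 2 ^ t := by ring
    have hA : (vA (2 ^ t * k + i) : ℝ) * (2 / (6 * ((s + 2 ^ t * (k + 1) : ℕ) : ℝ) + 6)) ≤
        g (6 * (s + (2 ^ t * k + i)) + 1) := by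
      by_cases hbit : XA.testBit (2 ^ t * k + i) = true
      · have hv : vA (2 ^ t * k + i) = 1 := by simp [hvA, hbit]
        rw [hv, Nat.cast_one, one_mul]
        exact g_ge (pairsA_gap hG hb hb1 hm hbit) (by omega)
      · have hv : vA (2 ^ t * k + i) = 0 := by simp [hvA, hbit]
        rw [hv, Nat.cast_zero, zero_mul]
        exact g_nonneg _
    have hB : (vB (2 ^ t * k + i) : ℝ) * (2 / (6 * ((s + 2 ^ t * (k + 1) : ℕ) : ℝ) + 6)) ≤
        g (6 * (s + (2 ^ t * k + i)) + 5) := by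
      by_cases hbit : XB.testBit (2 ^ t * k + i) = true
      · have hv : vB (2 ^ t * k + i) = 1 := by simp [hvB, hbit]
        rw [hv, Nat.cast_one, one_mul]
        exact g_ge (pairsB_gap hG hb hb1 hm hbit) (by omega)
      · have hv : vB (2 ^ t * k + i) = 0 := by simp [hvB, hbit]
        rw [hv, Nat.cast_zero, zero_mul]
        exact g_nonneg _
    push_cast at hA hB
    unfold G
    rw [add_mul]
    exact add_le_add hA hB
  have h3 : (∑ k ∈ Finset.range K, ((blk vA t k + blk vB t k : ℕ) : ℝ) *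
      (((20000000000 : ℕ) : ℝ) / (6 * ((s + 2 ^ t * (k + 1) : ℕ) : ℝ) + 6))) / 10000000000 =
      ∑ k ∈ Finset.range K, ((blk vA t k + blk vB t k : ℕ) : ℝ) *
      (2 / (6 * ((s + 2 ^ t * (k + 1) : ℕ) : ℝ) + 6)) := by
    rw [Finset.sum_div]
    apply Finset.sum_congr rfl
    intro k _
    push_cast
    ring
  calc (total (dig (2 ^ (2 ^ t)) (fun k => blk vA t k + blk vB t k) K) t s 20000000000 K : ℝ) / 10000000000
      ≤ (∑ k ∈ Finset.range K, ((blk vA t k + blk vB t k : ℕ) : ℝ) *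
      (((20000000000 : ℕ) : ℝ) / (6 * ((s + 2 ^ t * (k + 1) : ℕ) : ℝ) + 6))) / 10000000000 :=
        div_le_div_of_nonneg_right h1 (by norm_num)
    _ = ∑ k ∈ Finset.range K, ((blk vA t k + blk vB t k : ℕ) : ℝ) *
      (2 / (6 * ((s + 2 ^ t * (k + 1) : ℕ) : ℝ) + 6)) := h3
    _ ≤ ∑ k ∈ Finset.range K, ∑ i ∈ Finset.range (2 ^ t), G (s + (2 ^ t * k + i)) :=
        Finset.sum_le_sum (fun k hk => h2 k (Finset.mem_range.1 hk))
    _ = ∑ n ∈ Finset.range len, G (s + n) := sum_blocks (fun n => G (s + n)) (2 ^ t) K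

end Pool.Agent.V11300.KSW
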