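import Pool.Agent.V11300.KS.Prefix

set_option autoImplicit false

/-! The prime counting function at the multiples of `64` up to `10240000`, as the fields of one number. -/

namespace Pool.Agent.V11300.KS

/-- the odd primes below `3200` -/
def oddPrimes : List ℕ := [3, 5, 7, 11, 13, 17, 19, 23, 29, 31, 37, 41, 43, 47, 53, 59, 61, 67, 71, 73, 79, 83, 89, 97,
  101, 103, 107, 109, 113, 127, 131, 137, 139, 149, 151, 157, 163, 167, 173, 179, 181, 191, 193,
  197, 199, 211, 223, 227, 229, 233, 239, 241, 251, 257, 263, 269, 271, 277, 281, 283, 293, 307,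
  311, 313, 317, 331, 337, 347, 349, 353, 359, 367, 373, 379, 383, 389, 397, 401, 409, 419, 421,
  431, 433, 439, 443, 449, 457, 461, 463, 467, 479, 487, 491, 499, 503, 509, 521, 523, 541, 547,
  557, 563, 569, 571, 577, 587, 593, 599, 601, 607, 613, 617, 619, 631, 641, 643, 647, 653, 659,
  661, 673, 677, 683, 691, 701, 709, 719, 727, 733, 739, 743, 751, 757, 761, 769, 773, 787, 797,
  809, 811, 821, 823, 827, 829, 839, 853, 857, 859, 863, 877, 881, 883, 887, 907, 911, 919, 929,
  937, 941, 947, 953, 967, 971, 977, 983, 991, 997, 1009, 1013, 1019, 1021, 1031, 1033, 1039,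
  1049, 1051, 1061, 1063, 1069, 1087, 1091, 1093, 1097, 1103, 1109, 1117, 1123, 1129, 1151, 1153,
  1163, 1171, 1181, 1187, 1193, 1201, 1213, 1217, 1223, 1229, 1231, 1237, 1249, 1259, 1277, 1279,
  1283, 1289, 1291, 1297, 1301, 1303, 1307, 1319, 1321, 1327, 1361, 1367, 1373, 1381, 1399, 1409,
  1423, 1427, 1429, 1433, 1439, 1447, 1451, 1453, 1459, 1471, 1481, 1483, 1487, 1489, 1493, 1499,
  1511, 1523, 1531, 1543, 1549, 1553, 1559, 1567, 1571, 1579, 1583, 1597, 1601, 1607, 1609, 1613,
  1619, 1621, 1627, 1637, 1657, 1663, 1667, 1669, 1693, 1697, 1699, 1709, 1721, 1723, 1733, 1741,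
  1747, 1753, 1759, 1777, 1783, 1787, 1789, 1801, 1811, 1823, 1831, 1847, 1861, 1867, 1871, 1873,
  1877, 1879, 1889, 1901, 1907, 1913, 1931, 1933, 1949, 1951, 1973, 1979, 1987, 1993, 1997, 1999,
  2003, 2011, 2017, 2027, 2029, 2039, 2053, 2063, 2069, 2081, 2083, 2087, 2089, 2099, 2111, 2113,
  2129, 2131, 2137, 2141, 2143, 2153, 2161, 2179, 2203, 2207, 2213, 2221, 2237, 2239, 2243, 2251,
  2267, 2269, 2273, 2281, 2287, 2293, 2297, 2309, 2311, 2333, 2339, 2341, 2347, 2351, 2357, 2371,
  2377, 2381, 2383, 2389, 2393, 2399, 2411, 2417, 2423, 2437, 2441, 2447, 2459, 2467, 2473, 2477,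
  2503, 2521, 2531, 2539, 2543, 2549, 2551, 2557, 2579, 2591, 2593, 2609, 2617, 2621, 2633, 2647,
  2657, 2659, 2663, 2671, 2677, 2683, 2687, 2689, 2693, 2699, 2707, 2711, 2713, 2719, 2729, 2731,
  2741, 2749, 2753, 2767, 2777, 2789, 2791, 2797, 2801, 2803, 2819, 2833, 2837, 2843, 2851, 2857,
  2861, 2879, 2887, 2897, 2903, 2909, 2917, 2927, 2939, 2953, 2957, 2963, 2969, 2971, 2999, 3001,
  3011, 3019, 3023, 3037, 3041, 3049, 3061, 3067, 3079, 3083, 3089, 3109, 3119, 3121, 3137, 3163,
  3167, 3169, 3181, 3187, 3191]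

/-- the index of `3 q` among the odd numbers -/
def offs (q : ℕ) : ℕ := Nat.div (Nat.sub (Nat.mul 3 q) 1) 2

/-- bit `i` is set if `2 i + 1` is not marked -/
def unm (N : ℕ) (L : List ℕ) : ℕ :=
  Nat.xor (Nat.mod (marks N offs L) (Nat.pow 2 N)) (Nat.sub (Nat.pow 2 N) 1)

/-- every `2 j + 3`, `j < m`, has a divisor in `L` -/
def chkL (L : List ℕ) (m : ℕ) : Bool :=
  (List.range m).all (fun j => L.any (fun q => Nat.beq (Nat.mod (Nat.add (Nat.mul 2 j) 3) q) 0))

/-- all elements of `L` are odd and at least `3` -/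
def chkOdd (L : List ℕ) : Bool :=
  L.all (fun q => (Nat.beq (Nat.mod q 2) 1) && (Nat.ble 3 q))

theorem unm_lt (N : ℕ) (L : List ℕ) : unm N L < 2 ^ N := by
  unfold unm
  apply Nat.xor_lt_two_pow
  · exact Nat.mod_lt _ (Nat.two_pow_pos N)
  · have : 0 < 2 ^ N := by positivity
    show 2 ^ N - 1 < 2 ^ N
    omega

theorem testBit_unm {N : ℕ} {L : List ℕ} (hodd : chkOdd L = true) {m : ℕ} (hL : chkL L m = true)
    (hm : 2 * N < (2 * m + 3) * (2 * m + 3)) {i : ℕ} (hi : i < N) :
    (unm N L).testBit i = decide (i = 0 ∨ (2 * i + 1).Prime) := by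
  have hodd' : ∀ q ∈ L, q % 2 = 1 ∧ 3 ≤ q := by
    intro q hq
    unfold chkOdd at hodd
    rw [List.all_eq_true] at hodd
    have h1 := hodd q hq
    rw [Bool.and_eq_true] at h1
    exact ⟨Nat.eq_of_beq_eq_true h1.1, Nat.le_of_ble_eq_true h1.2⟩
  have hmark : (marks N offs L).testBit i = decide (∃ q ∈ L, 3 * q ≤ 2 * i + 1 ∧ q ∣ 2 * i + 1) := by
    rw [testBit_marks N offs L (fun q hq => by have := hodd' q hq; omega) i hi, Bool.eq_iff_iff]
    simp only [decide_eq_true_eq]
    apply exists_congr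
    intro q
    apply and_congr_right
    intro hq
    obtain ⟨h1, h2⟩ := hodd' q hq
    have h3 : offs q = (3 * q - 1) / 2 := rfl
    have h4 : 2 * offs q + 1 = 3 * q := by rw [h3]; omega
    have hcop : Nat.Coprime q 2 := by
      rw [Nat.coprime_comm, Nat.Coprime, Nat.gcd_rec, h1, Nat.gcd_one_left]
    constructor
    · rintro ⟨h5, h6⟩
      refine ⟨by omega, ?_⟩
      have h7 : 2 * i + 1 = 2 * (i - offs q) + 3 * q := by omega
      rw [h7]
      exact dvd_add (Dvd.dvd.mul_left h6 2) (Dvd.intro_left 3 rfl)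
    · rintro ⟨h5, h6⟩
      refine ⟨by omega, ?_⟩
      have h7 : 2 * (i - offs q) = 2 * i + 1 - 3 * q := by omega
      have h8 : q ∣ 2 * (i - offs q) := by
        rw [h7]
        exact Nat.dvd_sub h6 (Dvd.intro_left 3 rfl)
      exact Nat.Coprime.dvd_of_dvd_mul_left hcop h8
  have e : (unm N L).testBit i = !(marks N offs L).testBit i := by
    unfold unm
    change ((marks N offs L % 2 ^ N) ^^^ (2 ^ N - 1)).testBit i = _
    rw [Nat.testBit_xor, Nat.testBit_mod_two_pow, Nat.testBit_two_pow_sub_one]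
    simp [hi]
  rw [e, hmark, Bool.eq_iff_iff]
  simp only [Bool.not_eq_true', decide_eq_false_iff_not, decide_eq_true_eq]
  constructor
  · intro h
    by_contra hcon
    push Not at hcon
    obtain ⟨hi0, hnp⟩ := hcon
    apply h
    have h2 : 2 * i + 1 ≠ 1 := by omega
    have hp := Nat.minFac_prime h2
    have hdvd := Nat.minFac_dvd (2 * i + 1)
    have hsq := Nat.minFac_sq_le_self (show 0 < 2 * i + 1 by omega) hnp
    set p := (2 * i + 1).minFac with hpdef
    have hp2 : p ≠ 2 := by
      intro h3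
      rw [h3] at hdvd
      omega
    have hp3 : 3 ≤ p := by
      have := hp.two_le
      omega
    have hpodd : p % 2 = 1 := by
      rcases hp.eq_two_or_odd with h4 | h4
      · exact absurd h4 hp2
      · exact h4
    have hpm : p < 2 * m + 3 := by
      by_contra h5
      push Not at h5
      have h6 : (2 * m + 3) * (2 * m + 3) ≤ p * p := Nat.mul_le_mul h5 h5
      have h7 : p ^ 2 = p * p := sq p
      omega
    have hpL : p ∈ L := by
      unfold chkL at hL
      rw [List.all_eq_true] at hL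
      have h8 := hL ((p - 3) / 2) (by rw [List.mem_range]; omega)
      rw [List.any_eq_true] at h8
      obtain ⟨q, hq, hq2⟩ := h8
      have h9 : (2 * ((p - 3) / 2) + 3) % q = 0 := Nat.eq_of_beq_eq_true hq2
      have h10 : 2 * ((p - 3) / 2) + 3 = p := by omega
      rw [h10] at h9
      have h11 := Nat.dvd_of_mod_eq_zero h9
      rcases (Nat.dvd_prime hp).1 h11 with h12 | h12
      · have := (hodd' q hq).2
        omega
      · rw [← h12]; exact hq
    refine ⟨p, hpL, ?_, hdvd⟩
    have h13 : p ^ 2 = p * p := sq p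
    nlinarith
  · rintro (h | h) ⟨q, hq, h3, h4⟩
    · have := (hodd' q hq).2
      omega
    · have h5 := (hodd' q hq).2
      rcases (Nat.dvd_prime h).1 h4 with h6 | h6
      · omega
      · omega

theorem primeCounting_two_mul (j : ℕ) (hj : 1 ≤ j) :
    Nat.primeCounting (2 * j) =
      ∑ i ∈ Finset.range j, (decide (i = 0 ∨ (2 * i + 1).Prime)).toNat := by
  induction j, hj using Nat.le_induction with
  | base => simp; decide
  | succ j hj ih =>
    rw [Finset.sum_range_succ, ← ih]
    have e : 2 * (j + 1) = (2 * j + 1) + 1 := by ring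
    rw [e]
    unfold Nat.primeCounting
    unfold Nat.primeCounting'
    rw [Nat.count_succ, Nat.count_succ]
    have h1 : ¬ (2 * j + 1 + 1).Prime := by
      intro h
      rcases h.eq_two_or_odd with h2 | h2
      · omega
      · omega
    rw [if_neg h1, add_zero]
    congr 1
    by_cases h : (2 * j + 1).Prime
    · simp [h]
    · have h0 : j ≠ 0 := by omega
      simp [h, h0]

end Pool.Agent.V11300.KS
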