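import Pool.Agent.V11300.KS.Basic

set_option autoImplicit false

/-! Sieving the residue classes `1` and `5` modulo `6` in a segment. -/

namespace Pool.Agent.V11300.KSW

open Pool.Agent.V11300.KS

set_option maxRecDepth 20000 in
/-- the primes from `5` to `18000` -/
def ps : List ℕ := [5, 7, 11, 13, 17, 19, 23, 29, 31, 37, 41, 43, 47, 53, 59, 61, 67, 71, 73, 79, 83, 89, 97, 101,
  103, 107, 109, 113, 127, 131, 137, 139, 149, 151, 157, 163, 167, 173, 179, 181, 191, 193, 197,
  199, 211, 223, 227, 229, 233, 239, 241, 251, 257, 263, 269, 271, 277, 281, 283, 293, 307, 311,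
  313, 317, 331, 337, 347, 349, 353, 359, 367, 373, 379, 383, 389, 397, 401, 409, 419, 421, 431,
  433, 439, 443, 449, 457, 461, 463, 467, 479, 487, 491, 499, 503, 509, 521, 523, 541, 547, 557,
  563, 569, 571, 577, 587, 593, 599, 601, 607, 613, 617, 619, 631, 641, 643, 647, 653, 659, 661,
  673, 677, 683, 691, 701, 709, 719, 727, 733, 739, 743, 751, 757, 761, 769, 773, 787, 797, 809,
  811, 821, 823, 827, 829, 839, 853, 857, 859, 863, 877, 881, 883, 887, 907, 911, 919, 929, 937,
  941, 947, 953, 967, 971, 977, 983, 991, 997, 1009, 1013, 1019, 1021, 1031, 1033, 1039, 1049,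
  1051, 1061, 1063, 1069, 1087, 1091, 1093, 1097, 1103, 1109, 1117, 1123, 1129, 1151, 1153, 1163,
  1171, 1181, 1187, 1193, 1201, 1213, 1217, 1223, 1229, 1231, 1237, 1249, 1259, 1277, 1279, 1283,
  1289, 1291, 1297, 1301, 1303, 1307, 1319, 1321, 1327, 1361, 1367, 1373, 1381, 1399, 1409, 1423,
  1427, 1429, 1433, 1439, 1447, 1451, 1453, 1459, 1471, 1481, 1483, 1487, 1489, 1493, 1499, 1511,
  1523, 1531, 1543, 1549, 1553, 1559, 1567, 1571, 1579, 1583, 1597, 1601, 1607, 1609, 1613, 1619,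
  1621, 1627, 1637, 1657, 1663, 1667, 1669, 1693, 1697, 1699, 1709, 1721, 1723, 1733, 1741, 1747,
  1753, 1759, 1777, 1783, 1787, 1789, 1801, 1811, 1823, 1831, 1847, 1861, 1867, 1871, 1873, 1877,
  1879, 1889, 1901, 1907, 1913, 1931, 1933, 1949, 1951, 1973, 1979, 1987, 1993, 1997, 1999, 2003,
  2011, 2017, 2027, 2029, 2039, 2053, 2063, 2069, 2081, 2083, 2087, 2089, 2099, 2111, 2113, 2129,
  2131, 2137, 2141, 2143, 2153, 2161, 2179, 2203, 2207, 2213, 2221, 2237, 2239, 2243, 2251, 2267,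
  2269, 2273, 2281, 2287, 2293, 2297, 2309, 2311, 2333, 2339, 2341, 2347, 2351, 2357, 2371, 2377,
  2381, 2383, 2389, 2393, 2399, 2411, 2417, 2423, 2437, 2441, 2447, 2459, 2467, 2473, 2477, 2503,
  2521, 2531, 2539, 2543, 2549, 2551, 2557, 2579, 2591, 2593, 2609, 2617, 2621, 2633, 2647, 2657,
  2659, 2663, 2671, 2677, 2683, 2687, 2689, 2693, 2699, 2707, 2711, 2713, 2719, 2729, 2731, 2741,
  2749, 2753, 2767, 2777, 2789, 2791, 2797, 2801, 2803, 2819, 2833, 2837, 2843, 2851, 2857, 2861,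
  2879, 2887, 2897, 2903, 2909, 2917, 2927, 2939, 2953, 2957, 2963, 2969, 2971, 2999, 3001, 3011,
  3019, 3023, 3037, 3041, 3049, 3061, 3067, 3079, 3083, 3089, 3109, 3119, 3121, 3137, 3163, 3167,
  3169, 3181, 3187, 3191, 3203, 3209, 3217, 3221, 3229, 3251, 3253, 3257, 3259, 3271, 3299, 3301,
  3307, 3313, 3319, 3323, 3329, 3331, 3343, 3347, 3359, 3361, 3371, 3373, 3389, 3391, 3407, 3413,
  3433, 3449, 3457, 3461, 3463, 3467, 3469, 3491, 3499, 3511, 3517, 3527, 3529, 3533, 3539, 3541,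
  3547, 3557, 3559, 3571, 3581, 3583, 3593, 3607, 3613, 3617, 3623, 3631, 3637, 3643, 3659, 3671,
  3673, 3677, 3691, 3697, 3701, 3709, 3719, 3727, 3733, 3739, 3761, 3767, 3769, 3779, 3793, 3797,
  3803, 3821, 3823, 3833, 3847, 3851, 3853, 3863, 3877, 3881, 3889, 3907, 3911, 3917, 3919, 3923,
  3929, 3931, 3943, 3947, 3967, 3989, 4001, 4003, 4007, 4013, 4019, 4021, 4027, 4049, 4051, 4057,
  4073, 4079, 4091, 4093, 4099, 4111, 4127, 4129, 4133, 4139, 4153, 4157, 4159, 4177, 4201, 4211,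
  4217, 4219, 4229, 4231, 4241, 4243, 4253, 4259, 4261, 4271, 4273, 4283, 4289, 4297, 4327, 4337,
  4339, 4349, 4357, 4363, 4373, 4391, 4397, 4409, 4421, 4423, 4441, 4447, 4451, 4457, 4463, 4481,
  4483, 4493, 4507, 4513, 4517, 4519, 4523, 4547, 4549, 4561, 4567, 4583, 4591, 4597, 4603, 4621,
  4637, 4639, 4643, 4649, 4651, 4657, 4663, 4673, 4679, 4691, 4703, 4721, 4723, 4729, 4733, 4751,
  4759, 4783, 4787, 4789, 4793, 4799, 4801, 4813, 4817, 4831, 4861, 4871, 4877, 4889, 4903, 4909,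
  4919, 4931, 4933, 4937, 4943, 4951, 4957, 4967, 4969, 4973, 4987, 4993, 4999, 5003, 5009, 5011,
  5021, 5023, 5039, 5051, 5059, 5077, 5081, 5087, 5099, 5101, 5107, 5113, 5119, 5147, 5153, 5167,
  5171, 5179, 5189, 5197, 5209, 5227, 5231, 5233, 5237, 5261, 5273, 5279, 5281, 5297, 5303, 5309,
  5323, 5333, 5347, 5351, 5381, 5387, 5393, 5399, 5407, 5413, 5417, 5419, 5431, 5437, 5441, 5443,
  5449, 5471, 5477, 5479, 5483, 5501, 5503, 5507, 5519, 5521, 5527, 5531, 5557, 5563, 5569, 5573,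
  5581, 5591, 5623, 5639, 5641, 5647, 5651, 5653, 5657, 5659, 5669, 5683, 5689, 5693, 5701, 5711,
  5717, 5737, 5741, 5743, 5749, 5779, 5783, 5791, 5801, 5807, 5813, 5821, 5827, 5839, 5843, 5849,
  5851, 5857, 5861, 5867, 5869, 5879, 5881, 5897, 5903, 5923, 5927, 5939, 5953, 5981, 5987, 6007,
  6011, 6029, 6037, 6043, 6047, 6053, 6067, 6073, 6079, 6089, 6091, 6101, 6113, 6121, 6131, 6133,
  6143, 6151, 6163, 6173, 6197, 6199, 6203, 6211, 6217, 6221, 6229, 6247, 6257, 6263, 6269, 6271,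
  6277, 6287, 6299, 6301, 6311, 6317, 6323, 6329, 6337, 6343, 6353, 6359, 6361, 6367, 6373, 6379,
  6389, 6397, 6421, 6427, 6449, 6451, 6469, 6473, 6481, 6491, 6521, 6529, 6547, 6551, 6553, 6563,
  6569, 6571, 6577, 6581, 6599, 6607, 6619, 6637, 6653, 6659, 6661, 6673, 6679, 6689, 6691, 6701,
  6703, 6709, 6719, 6733, 6737, 6761, 6763, 6779, 6781, 6791, 6793, 6803, 6823, 6827, 6829, 6833,
  6841, 6857, 6863, 6869, 6871, 6883, 6899, 6907, 6911, 6917, 6947, 6949, 6959, 6961, 6967, 6971,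
  6977, 6983, 6991, 6997, 7001, 7013, 7019, 7027, 7039, 7043, 7057, 7069, 7079, 7103, 7109, 7121,
  7127, 7129, 7151, 7159, 7177, 7187, 7193, 7207, 7211, 7213, 7219, 7229, 7237, 7243, 7247, 7253,
  7283, 7297, 7307, 7309, 7321, 7331, 7333, 7349, 7351, 7369, 7393, 7411, 7417, 7433, 7451, 7457,
  7459, 7477, 7481, 7487, 7489, 7499, 7507, 7517, 7523, 7529, 7537, 7541, 7547, 7549, 7559, 7561,
  7573, 7577, 7583, 7589, 7591, 7603, 7607, 7621, 7639, 7643, 7649, 7669, 7673, 7681, 7687, 7691,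
  7699, 7703, 7717, 7723, 7727, 7741, 7753, 7757, 7759, 7789, 7793, 7817, 7823, 7829, 7841, 7853,
  7867, 7873, 7877, 7879, 7883, 7901, 7907, 7919, 7927, 7933, 7937, 7949, 7951, 7963, 7993, 8009,
  8011, 8017, 8039, 8053, 8059, 8069, 8081, 8087, 8089, 8093, 8101, 8111, 8117, 8123, 8147, 8161,
  8167, 8171, 8179, 8191, 8209, 8219, 8221, 8231, 8233, 8237, 8243, 8263, 8269, 8273, 8287, 8291,
  8293, 8297, 8311, 8317, 8329, 8353, 8363, 8369, 8377, 8387, 8389, 8419, 8423, 8429, 8431, 8443,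
  8447, 8461, 8467, 8501, 8513, 8521, 8527, 8537, 8539, 8543, 8563, 8573, 8581, 8597, 8599, 8609,
  8623, 8627, 8629, 8641, 8647, 8663, 8669, 8677, 8681, 8689, 8693, 8699, 8707, 8713, 8719, 8731,
  8737, 8741, 8747, 8753, 8761, 8779, 8783, 8803, 8807, 8819, 8821, 8831, 8837, 8839, 8849, 8861,
  8863, 8867, 8887, 8893, 8923, 8929, 8933, 8941, 8951, 8963, 8969, 8971, 8999, 9001, 9007, 9011,
  9013, 9029, 9041, 9043, 9049, 9059, 9067, 9091, 9103, 9109, 9127, 9133, 9137, 9151, 9157, 9161,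
  9173, 9181, 9187, 9199, 9203, 9209, 9221, 9227, 9239, 9241, 9257, 9277, 9281, 9283, 9293, 9311,
  9319, 9323, 9337, 9341, 9343, 9349, 9371, 9377, 9391, 9397, 9403, 9413, 9419, 9421, 9431, 9433,
  9437, 9439, 9461, 9463, 9467, 9473, 9479, 9491, 9497, 9511, 9521, 9533, 9539, 9547, 9551, 9587,
  9601, 9613, 9619, 9623, 9629, 9631, 9643, 9649, 9661, 9677, 9679, 9689, 9697, 9719, 9721, 9733,
  9739, 9743, 9749, 9767, 9769, 9781, 9787, 9791, 9803, 9811, 9817, 9829, 9833, 9839, 9851, 9857,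
  9859, 9871, 9883, 9887, 9901, 9907, 9923, 9929, 9931, 9941, 9949, 9967, 9973, 10007, 10009,
  10037, 10039, 10061, 10067, 10069, 10079, 10091, 10093, 10099, 10103, 10111, 10133, 10139,
  10141, 10151, 10159, 10163, 10169, 10177, 10181, 10193, 10211, 10223, 10243, 10247, 10253,
  10259, 10267, 10271, 10273, 10289, 10301, 10303, 10313, 10321, 10331, 10333, 10337, 10343,
  10357, 10369, 10391, 10399, 10427, 10429, 10433, 10453, 10457, 10459, 10463, 10477, 10487,
  10499, 10501, 10513, 10529, 10531, 10559, 10567, 10589, 10597, 10601, 10607, 10613, 10627,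
  10631, 10639, 10651, 10657, 10663, 10667, 10687, 10691, 10709, 10711, 10723, 10729, 10733,
  10739, 10753, 10771, 10781, 10789, 10799, 10831, 10837, 10847, 10853, 10859, 10861, 10867,
  10883, 10889, 10891, 10903, 10909, 10937, 10939, 10949, 10957, 10973, 10979, 10987, 10993,
  11003, 11027, 11047, 11057, 11059, 11069, 11071, 11083, 11087, 11093, 11113, 11117, 11119,
  11131, 11149, 11159, 11161, 11171, 11173, 11177, 11197, 11213, 11239, 11243, 11251, 11257,
  11261, 11273, 11279, 11287, 11299, 11311, 11317, 11321, 11329, 11351, 11353, 11369, 11383,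
  11393, 11399, 11411, 11423, 11437, 11443, 11447, 11467, 11471, 11483, 11489, 11491, 11497,
  11503, 11519, 11527, 11549, 11551, 11579, 11587, 11593, 11597, 11617, 11621, 11633, 11657,
  11677, 11681, 11689, 11699, 11701, 11717, 11719, 11731, 11743, 11777, 11779, 11783, 11789,
  11801, 11807, 11813, 11821, 11827, 11831, 11833, 11839, 11863, 11867, 11887, 11897, 11903,
  11909, 11923, 11927, 11933, 11939, 11941, 11953, 11959, 11969, 11971, 11981, 11987, 12007,
  12011, 12037, 12041, 12043, 12049, 12071, 12073, 12097, 12101, 12107, 12109, 12113, 12119,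
  12143, 12149, 12157, 12161, 12163, 12197, 12203, 12211, 12227, 12239, 12241, 12251, 12253,
  12263, 12269, 12277, 12281, 12289, 12301, 12323, 12329, 12343, 12347, 12373, 12377, 12379,
  12391, 12401, 12409, 12413, 12421, 12433, 12437, 12451, 12457, 12473, 12479, 12487, 12491,
  12497, 12503, 12511, 12517, 12527, 12539, 12541, 12547, 12553, 12569, 12577, 12583, 12589,
  12601, 12611, 12613, 12619, 12637, 12641, 12647, 12653, 12659, 12671, 12689, 12697, 12703,
  12713, 12721, 12739, 12743, 12757, 12763, 12781, 12791, 12799, 12809, 12821, 12823, 12829,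
  12841, 12853, 12889, 12893, 12899, 12907, 12911, 12917, 12919, 12923, 12941, 12953, 12959,
  12967, 12973, 12979, 12983, 13001, 13003, 13007, 13009, 13033, 13037, 13043, 13049, 13063,
  13093, 13099, 13103, 13109, 13121, 13127, 13147, 13151, 13159, 13163, 13171, 13177, 13183,
  13187, 13217, 13219, 13229, 13241, 13249, 13259, 13267, 13291, 13297, 13309, 13313, 13327,
  13331, 13337, 13339, 13367, 13381, 13397, 13399, 13411, 13417, 13421, 13441, 13451, 13457,
  13463, 13469, 13477, 13487, 13499, 13513, 13523, 13537, 13553, 13567, 13577, 13591, 13597,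
  13613, 13619, 13627, 13633, 13649, 13669, 13679, 13681, 13687, 13691, 13693, 13697, 13709,
  13711, 13721, 13723, 13729, 13751, 13757, 13759, 13763, 13781, 13789, 13799, 13807, 13829,
  13831, 13841, 13859, 13873, 13877, 13879, 13883, 13901, 13903, 13907, 13913, 13921, 13931,
  13933, 13963, 13967, 13997, 13999, 14009, 14011, 14029, 14033, 14051, 14057, 14071, 14081,
  14083, 14087, 14107, 14143, 14149, 14153, 14159, 14173, 14177, 14197, 14207, 14221, 14243,
  14249, 14251, 14281, 14293, 14303, 14321, 14323, 14327, 14341, 14347, 14369, 14387, 14389,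
  14401, 14407, 14411, 14419, 14423, 14431, 14437, 14447, 14449, 14461, 14479, 14489, 14503,
  14519, 14533, 14537, 14543, 14549, 14551, 14557, 14561, 14563, 14591, 14593, 14621, 14627,
  14629, 14633, 14639, 14653, 14657, 14669, 14683, 14699, 14713, 14717, 14723, 14731, 14737,
  14741, 14747, 14753, 14759, 14767, 14771, 14779, 14783, 14797, 14813, 14821, 14827, 14831,
  14843, 14851, 14867, 14869, 14879, 14887, 14891, 14897, 14923, 14929, 14939, 14947, 14951,
  14957, 14969, 14983, 15013, 15017, 15031, 15053, 15061, 15073, 15077, 15083, 15091, 15101,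
  15107, 15121, 15131, 15137, 15139, 15149, 15161, 15173, 15187, 15193, 15199, 15217, 15227,
  15233, 15241, 15259, 15263, 15269, 15271, 15277, 15287, 15289, 15299, 15307, 15313, 15319,
  15329, 15331, 15349, 15359, 15361, 15373, 15377, 15383, 15391, 15401, 15413, 15427, 15439,
  15443, 15451, 15461, 15467, 15473, 15493, 15497, 15511, 15527, 15541, 15551, 15559, 15569,
  15581, 15583, 15601, 15607, 15619, 15629, 15641, 15643, 15647, 15649, 15661, 15667, 15671,
  15679, 15683, 15727, 15731, 15733, 15737, 15739, 15749, 15761, 15767, 15773, 15787, 15791,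
  15797, 15803, 15809, 15817, 15823, 15859, 15877, 15881, 15887, 15889, 15901, 15907, 15913,
  15919, 15923, 15937, 15959, 15971, 15973, 15991, 16001, 16007, 16033, 16057, 16061, 16063,
  16067, 16069, 16073, 16087, 16091, 16097, 16103, 16111, 16127, 16139, 16141, 16183, 16187,
  16189, 16193, 16217, 16223, 16229, 16231, 16249, 16253, 16267, 16273, 16301, 16319, 16333,
  16339, 16349, 16361, 16363, 16369, 16381, 16411, 16417, 16421, 16427, 16433, 16447, 16451,
  16453, 16477, 16481, 16487, 16493, 16519, 16529, 16547, 16553, 16561, 16567, 16573, 16603,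
  16607, 16619, 16631, 16633, 16649, 16651, 16657, 16661, 16673, 16691, 16693, 16699, 16703,
  16729, 16741, 16747, 16759, 16763, 16787, 16811, 16823, 16829, 16831, 16843, 16871, 16879,
  16883, 16889, 16901, 16903, 16921, 16927, 16931, 16937, 16943, 16963, 16979, 16981, 16987,
  16993, 17011, 17021, 17027, 17029, 17033, 17041, 17047, 17053, 17077, 17093, 17099, 17107,
  17117, 17123, 17137, 17159, 17167, 17183, 17189, 17191, 17203, 17207, 17209, 17231, 17239,
  17257, 17291, 17293, 17299, 17317, 17321, 17327, 17333, 17341, 17351, 17359, 17377, 17383,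
  17387, 17389, 17393, 17401, 17417, 17419, 17431, 17443, 17449, 17467, 17471, 17477, 17483,
  17489, 17491, 17497, 17509, 17519, 17539, 17551, 17569, 17573, 17579, 17581, 17597, 17599,
  17609, 17623, 17627, 17657, 17659, 17669, 17681, 17683, 17707, 17713, 17729, 17737, 17747,
  17749, 17761, 17783, 17789, 17791, 17807, 17827, 17837, 17839, 17851, 17863, 17881, 17891,
  17903, 17909, 17911, 17921, 17923, 17929, 17939, 17957, 17959, 17971, 17977, 17981, 17987,
  17989]

/-- `K` copies with period `q`, by repeated halving with fuel `f` -/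
def repK (q : ℕ) (f : ℕ) : ℕ → ℕ :=
  Nat.rec (fun _ => 1) (fun _ r K => Nat.lor (r (Nat.div (Nat.add K 1) 2))
    (Nat.shiftLeft (r (Nat.div (Nat.add K 1) 2)) (Nat.mul q (Nat.div K 2)))) f

theorem repK_zero (q K : ℕ) : repK q 0 K = 1 := rfl

theorem repK_succ (q f K : ℕ) : repK q (f + 1) K =
    repK q f ((K + 1) / 2) ||| (repK q f ((K + 1) / 2)) <<< (q * (K / 2)) := rfl

theorem testBit_repK {q : ℕ} (hq : 0 < q) (f K : ℕ) (h1 : 1 ≤ K) (h2 : K ≤ 2 ^ f) (i : ℕ) :
    (repK q f K).testBit i = decide (q ∣ i ∧ i / q < K) := by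
  induction f generalizing K i with
  | zero =>
    have hK : K = 1 := by simp at h2; omega
    subst hK
    rw [repK_zero, testBit_one', Bool.eq_iff_iff]
    simp only [decide_eq_true_eq, Nat.lt_one_iff]
    constructor
    · rintro rfl; simp
    · rintro ⟨h3, h4⟩
      rw [Nat.div_eq_zero_iff] at h4
      rcases h4 with h4 | h4
      · omega
      · exact Nat.eq_zero_of_dvd_of_lt h3 h4
  | succ f ih =>
    have h3 : (K + 1) / 2 ≤ 2 ^ f := by rw [pow_succ] at h2; omega
    rw [repK_succ, Nat.testBit_or, Nat.testBit_shiftLeft, ih _ (by omega) h3, ih _ (by omega) h3,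
      Bool.eq_iff_iff]
    simp only [Bool.or_eq_true, Bool.and_eq_true, decide_eq_true_eq]
    constructor
    · rintro (⟨h4, h5⟩ | ⟨h4, h5, h6⟩)
      · exact ⟨h4, by omega⟩
      · have h4' : q * (K / 2) ≤ i := h4
        obtain ⟨j, hj⟩ := h5
        have hi : i = q * (j + K / 2) := by rw [Nat.mul_add]; omega
        rw [hj, Nat.mul_div_cancel_left _ hq] at h6
        rw [hi, Nat.mul_div_cancel_left _ hq]
        exact ⟨Dvd.intro _ rfl, by omega⟩
    · rintro ⟨⟨j, hj⟩, h5⟩
      rw [hj, Nat.mul_div_cancel_left _ hq] at h5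
      by_cases h6 : j < (K + 1) / 2
      · left
        rw [hj, Nat.mul_div_cancel_left _ hq]
        exact ⟨Dvd.intro _ rfl, h6⟩
      · right
        have h7 : i - q * (K / 2) = q * (j - K / 2) := by rw [hj, Nat.mul_sub]
        rw [h7, Nat.mul_div_cancel_left _ hq]
        refine ⟨?_, Dvd.intro _ rfl, by omega⟩
        rw [ge_iff_le, hj]
        exact Nat.mul_le_mul_left q (by omega)

/-- the least `i` with `q ∣ 6 (s + i) + r` -/
def off (s r q : ℕ) : ℕ :=
  Nat.mod (Nat.mul (Nat.sub q (Nat.mod (Nat.add (Nat.mul 6 s) r) q))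
    (Nat.div (Nat.add (Nat.mul q (Nat.sub 6 (Nat.mod q 6))) 1) 6)) q

theorem off_lt {s r q : ℕ} (hq : 0 < q) : off s r q < q := Nat.mod_lt _ hq

theorem off_dvd {s r q : ℕ} (hq : q % 6 = 1 ∨ q % 6 = 5) : q ∣ 6 * off s r q + (6 * s + r) := by
  have hq0 : 0 < q := by omega
  obtain ⟨c, hc⟩ : ∃ c, c = 6 - q % 6 := ⟨_, rfl⟩
  obtain ⟨v, hv⟩ : ∃ v, v = (q * c + 1) / 6 := ⟨_, rfl⟩
  have h6v : 6 * v = q * c + 1 := by
    have h1 : (q * c + 1) % 6 = 0 := by
      rcases hq with h | h
      · have : c = 5 := by omega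
        subst this; omega
      · have : c = 1 := by omega
        subst this; omega
    omega
  obtain ⟨b, hb⟩ : ∃ b, b = (6 * s + r) % q := ⟨_, rfl⟩
  have hbq : b < q := by rw [hb]; exact Nat.mod_lt _ hq0
  obtain ⟨a, ha⟩ : ∃ a, a + b = q := ⟨q - b, by omega⟩
  have ho : off s r q = (a * v) % q := by
    have : a = q - b := by omega
    rw [this, hb, hv, hc]
    rfl
  obtain ⟨t, ht⟩ : ∃ t, a * v = q * t + off s r q := by
    refine ⟨a * v / q, ?_⟩
    rw [ho]
    exact (Nat.div_add_mod _ _).symm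
  obtain ⟨u, hu⟩ : ∃ u, 6 * s + r = q * u + b := by
    refine ⟨(6 * s + r) / q, ?_⟩
    rw [hb]
    exact (Nat.div_add_mod _ _).symm
  have key : (6 * off s r q + (6 * s + r)) + q * (6 * t) = q * (c * a + 1 + u) := by
    have h2 : 6 * (a * v) = a * (q * c + 1) := by rw [← h6v]; ring
    rw [ht] at h2
    calc (6 * off s r q + (6 * s + r)) + q * (6 * t) = 6 * (q * t + off s r q) + (6 * s + r) := by ring
      _ = a * (q * c + 1) + (q * u + b) := by rw [h2, hu]
      _ = q * (c * a) + (a + b) + q * u := by ring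
      _ = q * (c * a) + q + q * u := by rw [ha]
      _ = q * (c * a + 1 + u) := by ring
  have h3 : q ∣ (6 * off s r q + (6 * s + r)) + q * (6 * t) := by rw [key]; exact Dvd.intro _ rfl
  exact (Nat.dvd_add_left (Dvd.intro _ rfl)).1 h3

theorem off_iff {s r q : ℕ} (hq : q % 6 = 1 ∨ q % 6 = 5) (i : ℕ) :
    (off s r q ≤ i ∧ q ∣ i - off s r q) ↔ q ∣ 6 * (s + i) + r := by
  have hq0 : 0 < q := by omega
  have hcop : Nat.Coprime q 6 := by
    rw [Nat.coprime_comm, Nat.Coprime, Nat.gcd_rec]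
    rcases hq with h | h <;> rw [h] <;> decide
  have h1 := off_dvd (s := s) (r := r) hq
  have h2 := off_lt (s := s) (r := r) hq0
  set o := off s r q
  constructor
  · rintro ⟨h3, h4⟩
    have e : 6 * (s + i) + r = 6 * (i - o) + (6 * o + (6 * s + r)) := by omega
    rw [e]
    exact dvd_add (Dvd.dvd.mul_left h4 6) h1
  · intro h3
    by_cases h4 : o ≤ i
    · refine ⟨h4, ?_⟩
      have e : 6 * (s + i) + r = 6 * (i - o) + (6 * o + (6 * s + r)) := by omega
      rw [e] at h3
      have h5 := (Nat.dvd_add_left h1).1 h3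
      exact Nat.Coprime.dvd_of_dvd_mul_left hcop h5
    · exfalso
      have e : 6 * o + (6 * s + r) = 6 * (o - i) + (6 * (s + i) + r) := by omega
      rw [e] at h1
      have h5 := (Nat.dvd_add_left h3).1 h1
      have h6 := Nat.Coprime.dvd_of_dvd_mul_left hcop h5
      have h7 := Nat.le_of_dvd (by omega) h6
      omega

/-- the marked multiples in the segment -/
def mk (len s r : ℕ) (L : List ℕ) : ℕ :=
  List.rec 0 (fun q _ a => Nat.lor (Nat.shiftLeft (repK q (Nat.add (Nat.log2 (Nat.div len q)) 1)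
     (Nat.add (Nat.div len q) 1)) (off s r q)) a) L

theorem mk_nil (len s r : ℕ) : mk len s r [] = 0 := rfl

theorem mk_cons (len s r q : ℕ) (L : List ℕ) : mk len s r (q :: L) =
    (repK q (Nat.log2 (len / q) + 1) (len / q + 1)) <<< (off s r q) ||| mk len s r L := rfl

/-- all elements of `L` are coprime to `6` -/
def chk6 (L : List ℕ) : Bool := L.all (fun q => Nat.beq (Nat.gcd q 6) 1)

theorem chk6_iff {L : List ℕ} (h : chk6 L = true) : ∀ q ∈ L, q % 6 = 1 ∨ q % 6 = 5 := by
  intro q hq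
  unfold chk6 at h
  rw [List.all_eq_true] at h
  have h1 := Nat.eq_of_beq_eq_true (h q hq)
  rw [Nat.gcd_comm, Nat.gcd_rec] at h1
  have h2 : q % 6 < 6 := Nat.mod_lt _ (by norm_num)
  interval_cases q % 6 <;> simp_all

theorem testBit_mk {len s r : ℕ} {L : List ℕ} (hL : ∀ q ∈ L, q % 6 = 1 ∨ q % 6 = 5) (i : ℕ)
    (hi : i < len) :
    (mk len s r L).testBit i = decide (∃ q ∈ L, q ∣ 6 * (s + i) + r) := by
  induction L with
  | nil => simp [mk_nil]
  | cons q L ih =>
    have hq := hL q (by simp)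
    have hq0 : 0 < q := by omega
    have h2 : len / q + 1 ≤ 2 ^ (Nat.log2 (len / q) + 1) := Nat.lt_log2_self
    rw [mk_cons, Nat.testBit_or, Nat.testBit_shiftLeft, testBit_repK hq0 _ _ (Nat.le_add_left 1 _) h2,
      ih (fun p hp => hL p (by simp [hp])), Bool.eq_iff_iff]
    simp only [Bool.or_eq_true, Bool.and_eq_true, decide_eq_true_eq, List.mem_cons,
      exists_eq_or_imp]
    rw [← off_iff hq]
    constructor
    · rintro (⟨h1, h3, -⟩ | h)
      · exact Or.inl ⟨h1, h3⟩
      · exact Or.inr h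
    · rintro (⟨h1, h3⟩ | h)
      · refine Or.inl ⟨h1, h3, ?_⟩
        have : (i - off s r q) / q ≤ len / q := Nat.div_le_div_right (by omega)
        omega
      · exact Or.inr h

/-- the unmarked numbers of the segment -/
def un (len s r : ℕ) (L : List ℕ) : ℕ :=
  Nat.xor (Nat.mod (mk len s r L) (Nat.pow 2 len)) (Nat.sub (Nat.pow 2 len) 1)

theorem un_lt (len s r : ℕ) (L : List ℕ) : un len s r L < 2 ^ len := by
  unfold un
  apply Nat.xor_lt_two_pow
  · exact Nat.mod_lt _ (Nat.two_pow_pos len)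
  · have : 0 < 2 ^ len := by positivity
    show 2 ^ len - 1 < 2 ^ len
    omega

theorem testBit_un {len s r : ℕ} {L : List ℕ} (hL : ∀ q ∈ L, q % 6 = 1 ∨ q % 6 = 5) (i : ℕ)
    (hi : i < len) :
    (un len s r L).testBit i = true ↔ ∀ q ∈ L, ¬ q ∣ 6 * (s + i) + r := by
  have e : (un len s r L).testBit i = !(mk len s r L).testBit i := by
    unfold un
    change ((mk len s r L % 2 ^ len) ^^^ (2 ^ len - 1)).testBit i = _
    rw [Nat.testBit_xor, Nat.testBit_mod_two_pow, Nat.testBit_two_pow_sub_one]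
    simp [hi]
  rw [e, testBit_mk hL i hi]
  simp

/-- every `2 j + 3`, `j < m`, is divisible by `3` or by an element of `L` -/
def chkW (L : List ℕ) (m : ℕ) : Bool :=
  (List.range m).all (fun j => Nat.beq (Nat.mod (Nat.add (Nat.mul 2 j) 3) 3) 0 ||
    L.any (fun q => Nat.beq (Nat.mod (Nat.add (Nat.mul 2 j) 3) q) 0))

/-- the elements of `L` are coprime to `6`, greater than `1` and less than `b` -/
structure Good (L : List ℕ) (m b : ℕ) : Prop where
  cop : ∀ q ∈ L, q % 6 = 1 ∨ q % 6 = 5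
  gt : ∀ q ∈ L, 1 < q
  lt : ∀ q ∈ L, q < b
  complete : ∀ p : ℕ, p.Prime → 5 ≤ p → p < 2 * m + 3 → p ∈ L

theorem good_of_chk {L : List ℕ} {m b : ℕ} (h1 : chk6 L = true)
    (h2 : L.all (fun q => Nat.ble 2 q && Nat.ble (q + 1) b) = true) (h3 : chkW L m = true) :
    Good L m b := by
  have h2' : ∀ q ∈ L, 2 ≤ q ∧ q + 1 ≤ b := by
    intro q hq
    rw [List.all_eq_true] at h2
    have h4 := h2 q hq
    rw [Bool.and_eq_true] at h4
    exact ⟨Nat.le_of_ble_eq_true h4.1, Nat.le_of_ble_eq_true h4.2⟩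
  refine ⟨chk6_iff h1, fun q hq => (h2' q hq).1, fun q hq => (h2' q hq).2, ?_⟩
  intro p hp hp5 hpm
  have hpodd : p % 2 = 1 := by
    rcases hp.eq_two_or_odd with h4 | h4
    · omega
    · exact h4
  unfold chkW at h3
  rw [List.all_eq_true] at h3
  have h8 := h3 ((p - 3) / 2) (by rw [List.mem_range]; omega)
  have h10 : Nat.add (Nat.mul 2 ((p - 3) / 2)) 3 = p := by
    show 2 * ((p - 3) / 2) + 3 = p
    omega
  rw [h10, Bool.or_eq_true] at h8
  rcases h8 with h8 | h8
  · have h9 : p % 3 = 0 := Nat.eq_of_beq_eq_true h8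
    have h11 := Nat.dvd_of_mod_eq_zero h9
    rcases (Nat.dvd_prime hp).1 h11 with h12 | h12
    · omega
    · omega
  · rw [List.any_eq_true] at h8
    obtain ⟨q, hq, hq2⟩ := h8
    have h9 : p % q = 0 := Nat.eq_of_beq_eq_true hq2
    have h11 := Nat.dvd_of_mod_eq_zero h9
    rcases (Nat.dvd_prime hp).1 h11 with h12 | h12
    · have := (h2' q hq).1
      omega
    · rw [← h12]; exact hq

theorem Good.prime_iff {L : List ℕ} {m b n : ℕ} (hG : Good L m b) (hn : n % 6 = 1 ∨ n % 6 = 5)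
    (hb : b ≤ n) (hb1 : 1 < b) (hm : n < (2 * m + 3) * (2 * m + 3)) :
    n.Prime ↔ ∀ q ∈ L, ¬ q ∣ n := by
  constructor
  · intro hp q hq hd
    rcases (Nat.dvd_prime hp).1 hd with h1 | h1
    · have := hG.gt q hq
      omega
    · have := hG.lt q hq
      omega
  · intro h
    by_contra hnp
    have h2 : n ≠ 1 := by omega
    have hp := Nat.minFac_prime h2
    have hdvd := Nat.minFac_dvd n
    have hsq := Nat.minFac_sq_le_self (show 0 < n by omega) hnp
    set p := n.minFac with hpdef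
    have hp2 : p ≠ 2 := by
      intro h3
      rw [h3] at hdvd
      omega
    have hp3 : p ≠ 3 := by
      intro h3
      rw [h3] at hdvd
      omega
    have hp4 : p ≠ 4 := by
      intro h3
      rw [h3] at hp
      exact absurd hp (by decide)
    have hp5 : 5 ≤ p := by
      have := hp.two_le
      omega
    have hpm : p < 2 * m + 3 := by
      by_contra h5
      push Not at h5
      have h6 : (2 * m + 3) * (2 * m + 3) ≤ p * p := Nat.mul_le_mul h5 h5
      have h7 : p ^ 2 = p * p := sq p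
      omega
    exact h p (hG.complete p hp hp5 hpm) hdvd

end Pool.Agent.V11300.KSW
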